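import Pool.Agent.P.MP_6e04fb_lc.Definable

/-!
Elementary set theory inside a model of ZF.
-/

open FirstOrder

set_option synthInstance.maxSize 100000

namespace Pool.Agent.P.MP_6e04fb_lc

variable {M : Type*} [Language.graph.Structure M] [hZ : Fact (IsZF M)]
variable {α : Type} {s t u : (α → M) → M}

noncomputable def upair (a b : M) : M := (hZ.out.pair a b).choose

lemma mem_upair {a b z : M} : Mem z (upair a b) ↔ z = a ∨ z = b := (hZ.out.pair a b).choose_spec z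

instance Tm.upair [Tm s] [Tm t] : Tm (fun v => upair (s v) (t v)) := by
  have : Df (fun w : Option α → M =>
      Mem (w none) (MP_6e04fb_lc.upair (s fun a => w (some a)) (t fun a => w (some a)))) := by
    simp only [mem_upair]; infer_instance
  exact Tm.of_mem _

noncomputable def sUn (a : M) : M := (hZ.out.union a).choose

lemma mem_sUn {a z : M} : Mem z (sUn a) ↔ ∃ y, Mem y a ∧ Mem z y := (hZ.out.union a).choose_spec z

instance Tm.sUn [Tm s] : Tm (fun v => sUn (s v)) := by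
  have : Df (fun w : Option α → M => Mem (w none) (MP_6e04fb_lc.sUn (s fun a => w (some a)))) := by
    simp only [mem_sUn]; infer_instance
  exact Tm.of_mem _

noncomputable def pw (a : M) : M := (hZ.out.power a).choose

lemma mem_pw {a z : M} : Mem z (pw a) ↔ Sub z a := (hZ.out.power a).choose_spec z

noncomputable def un (a b : M) : M := sUn (upair a b)

lemma mem_un {a b z : M} : Mem z (un a b) ↔ Mem z a ∨ Mem z b := by
  simp only [un, mem_sUn, mem_upair]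
  constructor
  · rintro ⟨y, rfl | rfl, h⟩
    · exact Or.inl h
    · exact Or.inr h
  · rintro (h | h)
    · exact ⟨a, Or.inl rfl, h⟩
    · exact ⟨b, Or.inr rfl, h⟩

noncomputable def suc (a : M) : M := un a (upair a a)

lemma mem_suc {a z : M} : Mem z (suc a) ↔ Mem z a ∨ z = a := by
  simp only [suc, mem_un, mem_upair, or_self]

instance Tm.suc [Tm s] : Tm (fun v => suc (s v)) := by
  unfold MP_6e04fb_lc.suc un; infer_instance

noncomputable def pr (a b : M) : M := upair (upair a a) (upair a b)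

instance Tm.pr [Tm s] [Tm t] : Tm (fun v => pr (s v) (t v)) := by
  unfold MP_6e04fb_lc.pr; infer_instance

lemma upair_eq {a b c d : M} (h : upair a b = upair c d) : (a = c ∧ b = d) ∨ (a = d ∧ b = c) := by
  have h1 : ∀ z, (z = a ∨ z = b) ↔ (z = c ∨ z = d) := fun z => by
    rw [← mem_upair, ← mem_upair, h]
  have ha := (h1 a).mp (Or.inl rfl)
  have hb := (h1 b).mp (Or.inr rfl)
  have hc := (h1 c).mpr (Or.inl rfl)
  have hd := (h1 d).mpr (Or.inr rfl)
  grind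

lemma pr_inj {a b c d : M} : pr a b = pr c d ↔ a = c ∧ b = d := by
  constructor
  · intro h
    rcases upair_eq h with ⟨h1, h2⟩ | ⟨h1, h2⟩
    · have := upair_eq h1
      have := upair_eq h2
      grind
    · have := upair_eq h1
      have := upair_eq h2
      grind
  · rintro ⟨rfl, rfl⟩; rfl

lemma rel_iff {r a b : M} : Rel r a b ↔ Mem (pr a b) r := by
  have key : ∀ z, Mem z (pr a b) ↔ (∀ t, Mem t z ↔ t = a) ∨ (∀ t, Mem t z ↔ t = a ∨ t = b) := by
    intro z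
    rw [pr, mem_upair]
    apply or_congr
    · constructor
      · rintro rfl t; rw [mem_upair, or_self]
      · intro h; exact ext fun t => by rw [h, mem_upair, or_self]
    · constructor
      · rintro rfl t; rw [mem_upair]
      · intro h; exact ext fun t => by rw [h, mem_upair]
  constructor
  · rintro ⟨c, hc, h⟩
    have : c = pr a b := ext fun z => by rw [h, key]
    rwa [← this]
  · intro h
    exact ⟨_, h, key⟩

lemma exists_prod (a b : M) : ∃ c, ∀ z, Mem z c ↔ ∃ x y, Mem x a ∧ Mem y b ∧ z = pr x y := by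
  obtain ⟨c, hc⟩ := sep (pw (pw (un a b))) (fun z => ∃ x y, Mem x a ∧ Mem y b ∧ z = pr x y)
  refine ⟨c, fun z => ?_⟩
  rw [hc, and_iff_right_iff_imp]
  rintro ⟨x, y, hx, hy, rfl⟩
  rw [mem_pw]
  intro p hp
  rw [mem_pw]
  intro q hq
  rw [mem_un]
  rw [pr, mem_upair] at hp
  rcases hp with rfl | rfl <;> rw [mem_upair] at hq <;> rcases hq with rfl | rfl <;> tauto

noncomputable def prod (a b : M) : M := (exists_prod a b).choose

lemma mem_prod {a b z : M} : Mem z (prod a b) ↔ ∃ x y, Mem x a ∧ Mem y b ∧ z = pr x y :=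
  (exists_prod a b).choose_spec z

lemma pr_mem_prod {a b x y : M} : Mem (pr x y) (prod a b) ↔ Mem x a ∧ Mem y b := by
  rw [mem_prod]
  constructor
  · rintro ⟨x', y', hx, hy, h⟩
    obtain ⟨rfl, rfl⟩ := pr_inj.mp h
    exact ⟨hx, hy⟩
  · rintro ⟨hx, hy⟩
    exact ⟨x, y, hx, hy, rfl⟩

/-- separation for relations -/
lemma sep2 (a b : M) (φ : M → M → Prop) [h : D2 φ] :
    ∃ r, ∀ x y, Mem (pr x y) r ↔ Mem x a ∧ Mem y b ∧ φ x y := by
  have := @h.sub
  obtain ⟨r, hr⟩ := sep (prod a b) (fun z => ∃ x y, z = pr x y ∧ φ x y)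
  refine ⟨r, fun x y => ?_⟩
  rw [hr, pr_mem_prod]
  constructor
  · rintro ⟨⟨hx, hy⟩, x', y', e, hφ⟩
    obtain ⟨rfl, rfl⟩ := pr_inj.mp e
    exact ⟨hx, hy, hφ⟩
  · rintro ⟨hx, hy, hφ⟩
    exact ⟨⟨hx, hy⟩, x, y, rfl, hφ⟩

lemma sep3 (a b c : M) (φ : M → M → M → Prop) [h : D3 φ] :
    ∃ r, ∀ x y z, Mem (pr x (pr y z)) r ↔ Mem x a ∧ Mem y b ∧ Mem z c ∧ φ x y z := by
  have := @h.sub
  obtain ⟨r, hr⟩ := sep2 a (prod b c) (fun x t => ∃ y z, t = pr y z ∧ φ x y z)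
  refine ⟨r, fun x y z => ?_⟩
  rw [hr, pr_mem_prod]
  constructor
  · rintro ⟨hx, ⟨hy, hz⟩, y', z', e, hφ⟩
    obtain ⟨rfl, rfl⟩ := pr_inj.mp e
    exact ⟨hx, hy, hz, hφ⟩
  · rintro ⟨hx, hy, hz, hφ⟩
    exact ⟨hx, ⟨hy, hz⟩, y, z, rfl, hφ⟩

lemma exists_min (a : M) (φ : M → Prop) [D1 φ] (h : ∃ x, Mem x a ∧ φ x) :
    ∃ x, Mem x a ∧ φ x ∧ ∀ y, Mem y x → Mem y a → ¬φ y := by
  obtain ⟨b, hb⟩ := sep a φ
  obtain ⟨x, hx⟩ := h
  obtain ⟨y, hy, hm⟩ := hZ.out.found b ⟨x, (hb x).mpr hx⟩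
  exact ⟨y, ((hb y).mp hy).1, ((hb y).mp hy).2, fun z hz h1 h2 => hm z hz ((hb z).mpr ⟨h1, h2⟩)⟩

lemma mem_ind (a : M) (φ : M → Prop) [h : D1 φ]
    (step : ∀ x, Mem x a → (∀ y, Mem y x → Mem y a → φ y) → φ x) : ∀ x, Mem x a → φ x := by
  have := @h.sub
  intro x hx
  by_contra hc
  obtain ⟨y, h1, h2, h3⟩ := exists_min a (fun x => ¬φ x) ⟨x, hx, hc⟩
  exact h2 (step y h1 fun z hz hz' => not_not.mp (h3 z hz hz'))

lemma mem_asymm {a b : M} (h1 : Mem a b) (h2 : Mem b a) : False := by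
  obtain ⟨y, hy, hm⟩ := hZ.out.found (upair a b) ⟨a, mem_upair.mpr (Or.inl rfl)⟩
  rcases mem_upair.mp hy with rfl | rfl
  · exact hm b h2 (mem_upair.mpr (Or.inr rfl))
  · exact hm a h1 (mem_upair.mpr (Or.inl rfl))

lemma mem_irrefl (a : M) : ¬Mem a a := fun h => mem_asymm h h

lemma suc_inj {a b : M} (h : suc a = suc b) : a = b := by
  have h1 : Mem a (suc b) := h ▸ mem_suc.mpr (Or.inr rfl)
  have h2 : Mem b (suc a) := h ▸ mem_suc.mpr (Or.inr rfl)
  rcases mem_suc.mp h1 with h1 | h1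
  · rcases mem_suc.mp h2 with h2 | h2
    · exact (mem_asymm h1 h2).elim
    · exact h2.symm
  · exact h1

lemma exists_emp : ∃ e : M, ∀ z, ¬Mem z e := by
  obtain ⟨w, ⟨e, -, he⟩, -⟩ := hZ.out.inf
  exact ⟨e, he⟩

variable (M) in
noncomputable def emp : M := (exists_emp (M := M)).choose

lemma not_mem_emp (z : M) : ¬Mem z (emp M) := (exists_emp (M := M)).choose_spec z

lemma suc_ne_emp (a : M) : suc a ≠ emp M := fun h =>
  not_mem_emp a (h ▸ mem_suc.mpr (Or.inr rfl))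

lemma inductive_iff {w : M} : Inductive w ↔ Mem (emp M) w ∧ ∀ x, Mem x w → Mem (suc x) w := by
  unfold Inductive
  apply and_congr
  · constructor
    · rintro ⟨e, he, h⟩
      have : e = emp M := ext fun z => by simp [h z, not_mem_emp z]
      rwa [← this]
    · intro h; exact ⟨_, h, not_mem_emp⟩
  · refine forall_congr' fun x => imp_congr_right fun _ => ?_
    constructor
    · rintro ⟨s, hs, h⟩
      have : s = suc x := ext fun z => by rw [h, mem_suc]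
      rwa [← this]
    · intro h; exact ⟨_, h, fun z => mem_suc⟩

lemma exists_om : ∃ w : M, Inductive w ∧ ∀ v, Inductive v → Sub w v := by
  obtain ⟨I, hI⟩ := hZ.out.inf
  obtain ⟨w, hw⟩ := sep I (fun x => ∀ v, Inductive v → Mem x v)
  refine ⟨w, ?_, fun v hv x hx => ((hw x).mp hx).2 v hv⟩
  rw [inductive_iff]
  refine ⟨(hw _).mpr ⟨(inductive_iff.mp hI).1, fun v hv => (inductive_iff.mp hv).1⟩, ?_⟩
  intro x hx
  obtain ⟨h1, h2⟩ := (hw x).mp hx
  exact (hw _).mpr ⟨(inductive_iff.mp hI).2 x h1, fun v hv => (inductive_iff.mp hv).2 x (h2 v hv)⟩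

variable (M) in
noncomputable def om : M := (exists_om (M := M)).choose

lemma om_spec : Inductive (om M) ∧ ∀ v, Inductive v → Sub (om M) v :=
  (exists_om (M := M)).choose_spec

lemma om_unique {w : M} (h : Inductive w ∧ ∀ v, Inductive v → Sub w v) : w = om M :=
  ext fun z => ⟨h.2 _ om_spec.1 z, om_spec.2 _ h.1 z⟩

lemma emp_mem_om : Mem (emp M) (om M) := (inductive_iff.mp om_spec.1).1

lemma suc_mem_om {n : M} (h : Mem n (om M)) : Mem (suc n) (om M) :=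
  (inductive_iff.mp om_spec.1).2 n h

lemma om_ind (φ : M → Prop) [D1 φ] (h0 : φ (emp M))
    (hs : ∀ n, Mem n (om M) → φ n → φ (suc n)) : ∀ n, Mem n (om M) → φ n := by
  obtain ⟨b, hb⟩ := sep (om M) φ
  have : Inductive b := by
    rw [inductive_iff]
    refine ⟨(hb _).mpr ⟨emp_mem_om, h0⟩, fun x hx => ?_⟩
    obtain ⟨h1, h2⟩ := (hb x).mp hx
    exact (hb _).mpr ⟨suc_mem_om h1, hs x h1 h2⟩
  intro n hn
  exact ((hb n).mp (om_spec.2 b this n hn)).2

lemma om_trans {n m : M} (hn : Mem n (om M)) (hm : Mem m n) : Mem m (om M) := by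
  refine om_ind (fun n => ∀ m, Mem m n → Mem m (om M)) ?_ ?_ n hn m hm
  · intro m hm; exact (not_mem_emp m hm).elim
  · intro n hn ih m hm
    rcases mem_suc.mp hm with h | rfl
    · exact ih m h
    · exact hn

lemma nat_trans {n m k : M} (hn : Mem n (om M)) (hm : Mem m n) (hk : Mem k m) : Mem k n := by
  refine om_ind (fun n => ∀ m k, Mem m n → Mem k m → Mem k n) ?_ ?_ n hn m k hm hk
  · intro m k hm; exact (not_mem_emp m hm).elim
  · intro n _ ih m k hm hk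
    rcases mem_suc.mp hm with h | rfl
    · exact mem_suc.mpr (Or.inl (ih m k h hk))
    · exact mem_suc.mpr (Or.inl hk)

lemma nat_tri {n m : M} (hn : Mem n (om M)) (hm : Mem m (om M)) :
    Mem n m ∨ n = m ∨ Mem m n := by
  refine mem_ind (om M) (fun x => ∀ y, Mem y (om M) → Mem x y ∨ x = y ∨ Mem y x) ?_ n hn m hm
  intro x hx ihx
  refine mem_ind (om M) (fun y => Mem x y ∨ x = y ∨ Mem y x) ?_
  intro y hy ihy
  by_contra hc
  push Not at hc
  obtain ⟨h1, h2, h3⟩ := hc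
  apply h2
  apply ext
  intro z
  constructor
  · intro hz
    rcases ihx z hz (om_trans hx hz) y hy with h | h | h
    · exact h
    · exact absurd (h ▸ hz) h3
    · exact absurd (nat_trans hx hz h) h3
  · intro hz
    rcases ihy z hz (om_trans hy hz) with h | h | h
    · exact absurd (nat_trans hy hz h) h1
    · exact absurd (h ▸ hz) h1
    · exact h

/-- least natural number -/
lemma nat_min (φ : M → Prop) [D1 φ] (h : ∃ n, Mem n (om M) ∧ φ n) :
    ∃ n, Mem n (om M) ∧ φ n ∧ ∀ m, Mem m n → ¬φ m := by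
  obtain ⟨n, h1, h2, h3⟩ := exists_min (om M) φ h
  exact ⟨n, h1, h2, fun m hm => h3 m hm (om_trans h1 hm)⟩

lemma nat_min_unique {φ : M → Prop} {n m : M} (hn : Mem n (om M)) (hm : Mem m (om M))
    (h1 : φ n) (h2 : φ m) (h3 : ∀ k, Mem k n → ¬φ k) (h4 : ∀ k, Mem k m → ¬φ k) : n = m := by
  rcases nat_tri hn hm with h | h | h
  · exact absurd h1 (h4 n h)
  · exact h
  · exact absurd h2 (h3 m h)

/-- recursion on the natural numbers of the model -/
lemma om_rec (x₀ : M) (Φ : M → M → Prop) [hΦ : D2 Φ] (hf : ∀ y, ∃! y', Φ y y') :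
    ∃ s : M, (∀ n, Mem n (om M) → ∃ y, Mem (pr n y) s) ∧
      (∀ n y y', Mem (pr n y) s → Mem (pr n y') s → y = y') ∧
      (∀ n y, Mem (pr n y) s → Mem n (om M)) ∧
      Mem (pr (emp M) x₀) s ∧
      ∀ n y y', Mem (pr n y) s → Φ y y' → Mem (pr (suc n) y') s := by
  have := @hΦ.sub
  let U : M → M → Prop := fun n y => ∃ g, Mem (pr n y) g ∧ ∀ m z, Mem (pr m z) g →
    (m = emp M ∧ z = x₀) ∨ ∃ m' z', m = suc m' ∧ Mem (pr m' z') g ∧ Φ z' z
  have hU : D2 U := by unfold U; infer_instance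
  have := @hU.sub
  have U0 : U (emp M) x₀ := by
    refine ⟨upair (pr (emp M) x₀) (pr (emp M) x₀), mem_upair.mpr (Or.inl rfl), fun m z h => ?_⟩
    rw [mem_upair, or_self, pr_inj] at h
    exact Or.inl h
  have Us : ∀ n y y', U n y → Φ y y' → U (suc n) y' := by
    rintro n y y' ⟨g, h1, h2⟩ h3
    refine ⟨un g (upair (pr (suc n) y') (pr (suc n) y')),
      mem_un.mpr (Or.inr (mem_upair.mpr (Or.inl rfl))), fun m z h => ?_⟩
    rcases mem_un.mp h with h | h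
    · rcases h2 m z h with h | ⟨m', z', a, b, c⟩
      · exact Or.inl h
      · exact Or.inr ⟨m', z', a, mem_un.mpr (Or.inl b), c⟩
    · rw [mem_upair, or_self, pr_inj] at h
      obtain ⟨rfl, rfl⟩ := h
      exact Or.inr ⟨n, y, rfl, mem_un.mpr (Or.inl h1), h3⟩
  have Ui : ∀ m z, U m z → (m = emp M ∧ z = x₀) ∨ ∃ m' z', m = suc m' ∧ U m' z' ∧ Φ z' z := by
    rintro m z ⟨g, h1, h2⟩
    rcases h2 m z h1 with h | ⟨m', z', a, b, c⟩
    · exact Or.inl h
    · exact Or.inr ⟨m', z', a, ⟨g, b, h2⟩, c⟩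
  have Ue : ∀ n, Mem n (om M) → ∃ y, U n y := by
    refine om_ind (fun n => ∃ y, U n y) ⟨_, U0⟩ ?_
    rintro n - ⟨y, hy⟩
    obtain ⟨y', hy', -⟩ := hf y
    exact ⟨y', Us n y y' hy hy'⟩
  have Uu : ∀ n, Mem n (om M) → ∀ y y', U n y → U n y' → y = y' := by
    refine om_ind (fun n => ∀ y y', U n y → U n y' → y = y') ?_ ?_
    · intro y y' h1 h2
      rcases Ui _ _ h1 with h1 | ⟨m, _, h1, -⟩
      · rcases Ui _ _ h2 with h2 | ⟨m, _, h2, -⟩
        · rw [h1.2, h2.2]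
        · exact absurd h2.symm (suc_ne_emp m)
      · exact absurd h1.symm (suc_ne_emp m)
    · intro n _ ih y y' h1 h2
      rcases Ui _ _ h1 with h1 | ⟨m, z, a, b, c⟩
      · exact absurd h1.1 (suc_ne_emp n)
      rcases Ui _ _ h2 with h2 | ⟨m', z', a', b', c'⟩
      · exact absurd h2.1 (suc_ne_emp n)
      obtain rfl := suc_inj a
      obtain rfl := suc_inj a'
      obtain rfl := ih _ _ b b'
      exact (hf z).unique c c'
  obtain ⟨r, hr⟩ := repl (om M) U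
    (fun n hn => let ⟨y, hy⟩ := Ue n hn; ⟨y, hy, fun y' hy' => Uu n hn _ _ hy' hy⟩)
  obtain ⟨s, hs⟩ := sep2 (om M) r U
  have hs' : ∀ n y, Mem (pr n y) s ↔ Mem n (om M) ∧ U n y := fun n y => by
    rw [hs]
    exact ⟨fun h => ⟨h.1, h.2.2⟩, fun h => ⟨h.1, (hr y).mpr ⟨n, h.1, h.2⟩, h.2⟩⟩
  refine ⟨s, fun n hn => ?_, fun n y y' h1 h2 => ?_, fun n y h => ((hs' _ _).mp h).1,
    (hs' _ _).mpr ⟨emp_mem_om, U0⟩, fun n y y' h1 h2 => ?_⟩
  · obtain ⟨y, hy⟩ := Ue n hn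
    exact ⟨y, (hs' _ _).mpr ⟨hn, hy⟩⟩
  · exact Uu n ((hs' _ _).mp h1).1 _ _ ((hs' _ _).mp h1).2 ((hs' _ _).mp h2).2
  · exact (hs' _ _).mpr ⟨suc_mem_om ((hs' _ _).mp h1).1, Us _ _ _ ((hs' _ _).mp h1).2 h2⟩

lemma fst_mem_sUn {a b r : M} (h : Mem (pr a b) r) : Mem a (sUn (sUn r)) :=
  mem_sUn.mpr ⟨upair a b, mem_sUn.mpr ⟨_, h, mem_upair.mpr (Or.inr rfl)⟩, mem_upair.mpr (Or.inl rfl)⟩

lemma snd_mem_sUn {a b r : M} (h : Mem (pr a b) r) : Mem b (sUn (sUn r)) :=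
  mem_sUn.mpr ⟨upair a b, mem_sUn.mpr ⟨_, h, mem_upair.mpr (Or.inr rfl)⟩, mem_upair.mpr (Or.inr rfl)⟩

/-- every set is an element of a transitive set -/
lemma exists_trans (a : M) : ∃ T, Mem a T ∧ ∀ x y, Mem x T → Mem y x → Mem y T := by
  obtain ⟨s, -, -, -, h0, hs⟩ := om_rec (upair a a) (fun y y' => y' = sUn y)
    (fun y => ⟨_, rfl, fun _ h => h⟩)
  obtain ⟨T, hT⟩ := sep (sUn (sUn (sUn s))) (fun x => ∃ n y : M, Mem (pr n y) s ∧ Mem x y)
  have hT' : ∀ x, Mem x T ↔ ∃ n y, Mem (pr n y) s ∧ Mem x y := fun x => by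
    rw [hT, and_iff_right_iff_imp]
    rintro ⟨n, y, h1, h2⟩
    exact mem_sUn.mpr ⟨y, snd_mem_sUn h1, h2⟩
  refine ⟨T, (hT' a).mpr ⟨_, _, h0, mem_upair.mpr (Or.inl rfl)⟩, fun x y hx hy => ?_⟩
  obtain ⟨n, z, h1, h2⟩ := (hT' x).mp hx
  exact (hT' y).mpr ⟨_, _, hs n z _ h1 rfl, mem_sUn.mpr ⟨x, h2, hy⟩⟩

/-- fixed point of a monotone definable operator -/
lemma exists_fix (C : M) (Φ : M → M → Prop) [hΦ : D2 Φ]
    (mono : ∀ Z Z' t, Sub Z Z' → Φ Z t → Φ Z' t) : ∃ I, ∀ t, Mem t I ↔ Mem t C ∧ Φ I t := by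
  have := @hΦ.sub
  obtain ⟨I, hI⟩ := sep C (fun t => ∃ Z, Mem t Z ∧ ∀ s, Mem s Z → Mem s C ∧ Φ Z s)
  obtain ⟨J, hJ⟩ := sep C (fun t => Φ I t)
  have h1 : Sub I J := by
    intro t ht
    obtain ⟨hc, Z, hz, hZ⟩ := (hI t).mp ht
    refine (hJ t).mpr ⟨hc, mono Z I t ?_ (hZ t hz).2⟩
    intro s hs
    exact (hI s).mpr ⟨(hZ s hs).1, Z, hs, hZ⟩
  refine ⟨I, fun t => ⟨fun ht => (hJ t).mp (h1 t ht), fun ht => ?_⟩⟩
  refine (hI t).mpr ⟨ht.1, J, (hJ t).mpr ht, fun s hs => ?_⟩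
  exact ⟨((hJ s).mp hs).1, mono I J s h1 ((hJ s).mp hs).2⟩

end Pool.Agent.P.MP_6e04fb_lc
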