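import Pool.Agent.P.MP_6e04fb_lc.Count

/-!
The combinatorial core: under the chain condition no relation codes a generic surjection from
`ω` onto an uncountable set of ordinals.
-/

open FirstOrder

set_option synthInstance.maxSize 100000

namespace Pool.Agent.P.MP_6e04fb_lc

variable {M : Type*} [Language.graph.Structure M] [hZ : Fact (IsZF M)]
variable {α : Type} {s t u v : (α → M) → M}

/-- `p ≤ q` for conditions -/
def Le (P R p q : M) : Prop := Mem p P ∧ Mem q P ∧ Rel R p q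

instance Df.le {P R : M} [Tm s] [Tm t] : Df (fun w => Le P R (s w) (t w)) := by
  unfold Le; infer_instance

omit hZ in
lemma IsForcing.le_refl {P R one : M} (h : IsForcing P R one) {p : M} (hp : Mem p P) :
    Le P R p p := ⟨hp, hp, h.refl p hp⟩

omit hZ in
lemma IsForcing.le_trans {P R one : M} (h : IsForcing P R one) {p q r : M} (h1 : Le P R p q)
    (h2 : Le P R q r) : Le P R p r :=
  ⟨h1.1, h2.2.1, h.trans p q r h1.1 h1.2.1 h2.2.1 h1.2.2 h2.2.2⟩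

/-- a name for a ground model object has countably many possible values -/
lemma ctbl_values {P R one : M} (hF : IsForcing P R one) (hc : CCC3 P R) (V : M → M → Prop)
    [hV : D2 V] (mono : ∀ q r a, V q a → Le P R r q → V r a)
    (func : ∀ q a b, V q a → V q b → a = b) (U : M)
    (hU : ∀ a, Mem a U → ∃ q, Mem q P ∧ V q a) : Ctbl U := by
  have := @hV.sub
  obtain ⟨D, hD⟩ := sep P (fun q => (∃ a : M, V q a) ∨ ∀ r a : M, Le P R r q → ¬V r a)
  have pre : Predense P R D := by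
    refine ⟨fun q hq => ((hD q).mp hq).1, fun p hp => ?_⟩
    by_cases h : ∃ r a : M, Le P R r p ∧ V r a
    · obtain ⟨r, a, h1, h2⟩ := h
      exact ⟨r, (hD r).mpr ⟨h1.1, Or.inl ⟨a, h2⟩⟩, r, h1.1, h1.2.2, hF.refl r h1.1⟩
    · push Not at h
      exact ⟨p, (hD p).mpr ⟨hp, Or.inr h⟩, p, hp, hF.refl p hp, hF.refl p hp⟩
  obtain ⟨D₀, h1, h2, h3⟩ := hc D pre
  obtain ⟨f, f1, f2⟩ := h2.inj
  refine ctbl_of U (fun n a => ∃ d : M, Mem (pr d n) f ∧ V d a) ?_ ?_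
  · rintro n a b ⟨d, a1, a2⟩ ⟨e, b1, b2⟩
    obtain rfl := f2 _ _ _ a1 b1
    exact func _ _ _ a2 b2
  · intro a ha
    obtain ⟨q, hq, hV⟩ := hU a ha
    obtain ⟨d, hd, r, hr, r1, r2⟩ := h3.2 q hq
    have hr' := mono q r a hV ⟨hr, hq, r1⟩
    obtain ⟨hdP, hd'⟩ := (hD d).mp (h1 d hd)
    rcases hd' with ⟨b, hb⟩ | hd'
    · obtain rfl := func r a b hr' (mono d r b hb ⟨hr, hdP, r2⟩)
      obtain ⟨n, n1, n2⟩ := f1 d hd
      exact ⟨n, n1, d, n2, hb⟩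
    · exact absurd hr' (hd' r a ⟨hr, hdP, r2⟩)

/-- data coding a generic surjection of `ω` onto `w` below `p₀` -/
structure Codes (P R p₀ w S : M) : Prop where
  mem : Mem p₀ P
  bound : ∀ q n a, Mem (pr q (pr n a)) S → Le P R q p₀ ∧ Mem n (om M) ∧ Mem a w
  mono : ∀ q r n a, Mem (pr q (pr n a)) S → Le P R r q → Mem (pr r (pr n a)) S
  func : ∀ q n a b, Mem (pr q (pr n a)) S → Mem (pr q (pr n b)) S → a = b
  onto : ∀ a q, Mem a w → Le P R q p₀ → ∃ r n, Le P R r q ∧ Mem (pr r (pr n a)) S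

/-- possible values -/
def PV (S c n a : M) : Prop := ∃ q : M, Mem q c ∧ Mem (pr q (pr n a)) S

instance Df.pv {S : M} [Tm s] [Tm t] [Tm u] : Df (fun w => PV S (s w) (t w) (u w)) := by
  unfold PV; infer_instance

noncomputable def Aset (S w c n : M) : M := (sep w (fun a => PV S c n a)).choose

lemma mem_Aset {S w c n a : M} : Mem a (Aset S w c n) ↔ Mem a w ∧ PV S c n a :=
  (sep w (fun a => PV S c n a)).choose_spec a

instance Tm.aset {S w : M} [Tm s] [Tm t] : Tm (fun v => Aset S w (s v) (t v)) := by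
  have : Df (fun x : Option α → M =>
      Mem (x none) (Aset S w (s fun a => x (some a)) (t fun a => x (some a)))) := by
    simp only [mem_Aset]; infer_instance
  exact Tm.of_mem _

/-- nonempty open set of conditions below `p₀` -/
def Op (P R p₀ c : M) : Prop :=
  (∃ q, Mem q c) ∧ (∀ q, Mem q c → Le P R q p₀) ∧ ∀ q r, Mem q c → Le P R r q → Mem r c

instance Df.op {P R p₀ : M} [Tm s] : Df (fun w => Op P R p₀ (s w)) := by
  unfold Op; infer_instance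

def Two (S c n : M) : Prop := ∃ a b : M, ¬a = b ∧ PV S c n a ∧ PV S c n b

instance Df.two {S : M} [Tm s] [Tm t] : Df (fun w => Two S (s w) (t w)) := by
  unfold Two; infer_instance

def Crit (S c n a : M) : Prop :=
  Mem n (om M) ∧ Two S c n ∧ (∀ m, Mem m n → ¬Two S c m) ∧ PV S c n a ∧
    ∀ b, Mem b a → ¬PV S c n b

instance Df.crit {S : M} [Tm s] [Tm t] [Tm u] : Df (fun w => Crit S (s w) (t w) (u w)) := by
  unfold Crit; infer_instance

variable {P R p₀ w S : M}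

lemma Codes.pv_mem (h : Codes P R p₀ w S) {c n a : M} (hp : PV S c n a) : Mem a w :=
  let ⟨_, _, h2⟩ := hp; (h.bound _ _ _ h2).2.2

lemma Codes.cover (h : Codes P R p₀ w S) {c : M} (hc : Op P R p₀ c) {a : M} (ha : Mem a w) :
    ∃ n, Mem n (om M) ∧ PV S c n a := by
  obtain ⟨⟨q, hq⟩, h1, h2⟩ := hc
  obtain ⟨r, n, r1, r2⟩ := h.onto a q ha (h1 q hq)
  exact ⟨n, (h.bound _ _ _ r2).2.1, r, h2 q r hq r1, r2⟩

lemma Codes.exists_crit (h : Codes P R p₀ w S) (hw : ¬Ctbl w) {c : M} (hc : Op P R p₀ c) :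
    ∃ n a, Crit S c n a := by
  have h1 : ∃ n, Mem n (om M) ∧ Two S c n := by
    by_contra hn
    apply hw
    refine ctbl_of w (fun n a => PV S c n a) ?_ (fun a ha => h.cover hc ha)
    intro n a b ha hb
    by_contra hab
    obtain ⟨q, -, hq⟩ := id ha
    exact hn ⟨n, (h.bound _ _ _ hq).2.1, a, b, hab, ha, hb⟩
  obtain ⟨n, n1, n2, n3⟩ := nat_min (fun n => Two S c n) h1
  obtain ⟨a, -, -, ha, -⟩ := id n2
  obtain ⟨a, -, a2, a3⟩ := exists_min w (fun a => PV S c n a) ⟨a, h.pv_mem ha, ha⟩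
  exact ⟨n, a, n1, n2, n3, a2, fun b hb hb' => a3 b hb (h.pv_mem hb') hb'⟩

lemma Codes.crit_unique (h : Codes P R p₀ w S) (hl : Lin w) {c n a m b : M} (h1 : Crit S c n a)
    (h2 : Crit S c m b) : n = m ∧ a = b := by
  obtain ⟨a1, a2, a3, a4, a5⟩ := h1
  obtain ⟨b1, b2, b3, b4, b5⟩ := h2
  obtain rfl := nat_min_unique (φ := fun n => Two S c n) a1 b1 a2 b2 a3 b3
  refine ⟨rfl, ?_⟩
  rcases hl a b (h.pv_mem a4) (h.pv_mem b4) with e | e | e
  · exact absurd a4 (b5 a e)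
  · exact e
  · exact absurd b4 (a5 b e)

/-- infinitely many pairwise disjoint nonempty open sets -/
lemma Codes.partition (h : Codes P R p₀ w S) (hF : ∃ one, IsForcing P R one) (hl : Lin w)
    (hw : ¬Ctbl w) : ∃ B : M, (∀ k, Mem k (om M) → ∃ b, Mem (pr k b) B) ∧
      (∀ k b, Mem (pr k b) B → Mem k (om M) ∧ Op P R p₀ b) ∧
      (∀ k l b b' q, Mem (pr k b) B → Mem (pr l b') B → Mem q b → Mem q b' → k = l) ∧
      (∀ k b b', Mem (pr k b) B → Mem (pr k b') B → b = b') := by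
  obtain ⟨one, hF⟩ := hF
  let Φ : M → M → Prop := fun c c' => ∀ q : M, Mem q c' ↔ Mem q c ∧
    ∃ n a b : M, Crit S c n a ∧ ¬b = a ∧ Mem (pr q (pr n b)) S
  have hΦ : D2 Φ := by unfold Φ; infer_instance
  let Ψ : M → M → Prop := fun c b => ∀ q : M, Mem q b ↔ Mem q c ∧
    ∃ n a : M, Crit S c n a ∧ Mem (pr q (pr n a)) S
  have hΨ : D2 Ψ := by unfold Ψ; infer_instance
  have := @hΨ.sub
  have hf : ∀ c, ∃! c', Φ c c' := by
    intro c
    obtain ⟨c', hc'⟩ := sep c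
      (fun q => ∃ n a b : M, Crit S c n a ∧ ¬b = a ∧ Mem (pr q (pr n b)) S)
    exact ⟨c', hc', fun d hd => ext fun q => by rw [hd, hc']⟩
  have hg : ∀ c, ∃ b, Ψ c b := fun c =>
    sep c (fun q => ∃ n a : M, Crit S c n a ∧ Mem (pr q (pr n a)) S)
  have Φop : ∀ c c', Op P R p₀ c → Φ c c' → Op P R p₀ c' := by
    intro c c' hc hc'
    refine ⟨?_, fun q hq => hc.2.1 q ((hc' q).mp hq).1, fun q r hq hr => ?_⟩
    · obtain ⟨n, a, hcr⟩ := h.exists_crit hw hc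
      obtain ⟨x, y, hxy, ⟨q, q1, q2⟩, ⟨r, r1, r2⟩⟩ := hcr.2.1
      by_cases e : x = a
      · exact ⟨r, (hc' r).mpr ⟨r1, n, a, y, hcr, fun e' => hxy (e.trans e'.symm), r2⟩⟩
      · exact ⟨q, (hc' q).mpr ⟨q1, n, a, x, hcr, e, q2⟩⟩
    · obtain ⟨q1, n, a, b, q2, q3, q4⟩ := (hc' q).mp hq
      exact (hc' r).mpr ⟨hc.2.2 q r q1 hr, n, a, b, q2, q3, h.mono _ _ _ _ q4 hr⟩
  have Ψop : ∀ c b, Op P R p₀ c → Ψ c b → Op P R p₀ b := by
    intro c c' hc hc'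
    refine ⟨?_, fun q hq => hc.2.1 q ((hc' q).mp hq).1, fun q r hq hr => ?_⟩
    · obtain ⟨n, a, hcr⟩ := h.exists_crit hw hc
      obtain ⟨q, q1, q2⟩ := hcr.2.2.2.1
      exact ⟨q, (hc' q).mpr ⟨q1, n, a, hcr, q2⟩⟩
    · obtain ⟨q1, n, a, q2, q4⟩ := (hc' q).mp hq
      exact (hc' r).mpr ⟨hc.2.2 q r q1 hr, n, a, q2, h.mono _ _ _ _ q4 hr⟩
  have disj : ∀ c c' b q, Φ c c' → Ψ c b → Mem q c' → Mem q b → False := by
    intro c c' b q h1 h2 h3 h4
    obtain ⟨-, n, a, x, a1, a2, a3⟩ := (h1 q).mp h3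
    obtain ⟨-, m, y, b1, b2⟩ := (h2 q).mp h4
    obtain ⟨rfl, rfl⟩ := h.crit_unique hl a1 b1
    exact a2 (h.func _ _ _ _ a3 b2)
  obtain ⟨c₀, hc₀⟩ := sep P (fun q => Le P R q p₀)
  have op₀ : Op P R p₀ c₀ :=
    ⟨⟨p₀, (hc₀ _).mpr ⟨h.mem, hF.le_refl h.mem⟩⟩, fun q hq => ((hc₀ q).mp hq).2,
      fun q r hq hr => (hc₀ r).mpr ⟨hr.1, hF.le_trans hr ((hc₀ q).mp hq).2⟩⟩
  obtain ⟨s, s1, s2, s3, s4, s5⟩ := om_rec c₀ Φ hf
  have inv : ∀ n c', Mem n (om M) → Mem (pr (suc n) c') s → ∃ c, Mem (pr n c) s ∧ Φ c c' := by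
    intro n c' hn h1
    obtain ⟨c, hc⟩ := s1 n hn
    obtain ⟨d, hd, -⟩ := hf c
    obtain rfl := s2 _ _ _ h1 (s5 _ _ _ hc hd)
    exact ⟨c, hc, hd⟩
  have sop : ∀ n, Mem n (om M) → ∀ c, Mem (pr n c) s → Op P R p₀ c := by
    refine om_ind (fun n => ∀ c : M, Mem (pr n c) s → Op P R p₀ c) ?_ ?_
    · intro c hc
      rwa [s2 _ _ _ hc s4]
    · intro n hn ih c' hc'
      obtain ⟨c, h1, h2⟩ := inv n c' hn hc'
      exact Φop c c' (ih c h1) h2
  have later : ∀ l, Mem l (om M) → ∀ k c d b q, Mem k l → Mem (pr l d) s → Mem (pr k c) s →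
      Ψ c b → Mem q d → ¬Mem q b := by
    refine om_ind (fun l => ∀ k c d b q : M, Mem k l → Mem (pr l d) s → Mem (pr k c) s →
      Ψ c b → Mem q d → ¬Mem q b) ?_ ?_
    · intro k _ _ _ _ hk
      exact (not_mem_emp k hk).elim
    · intro l hl ih k c d b q hk h1 h2 h3 h4
      obtain ⟨e, e1, e2⟩ := inv l d hl h1
      rcases mem_suc.mp hk with hk | rfl
      · exact ih k c e b q hk e1 h2 h3 ((e2 q).mp h4).1
      · obtain rfl := s2 _ _ _ e1 h2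
        exact disj _ _ _ _ e2 h3 h4
  obtain ⟨B, hB⟩ := sep2 (om M) (pw P) (fun k b => ∃ c : M, Mem (pr k c) s ∧ Ψ c b)
  refine ⟨B, fun k hk => ?_, fun k b hb => ?_, fun k l b b' q h1 h2 h3 h4 => ?_,
    fun k b b' h1 h2 => ?_⟩
  · obtain ⟨c, hc⟩ := s1 k hk
    obtain ⟨b, hb⟩ := hg c
    refine ⟨b, (hB _ _).mpr ⟨hk, mem_pw.mpr fun q hq => ?_, c, hc, hb⟩⟩
    exact ((sop k hk c hc).2.1 q ((hb q).mp hq).1).1
  · obtain ⟨hk, -, c, h1, h2⟩ := (hB _ _).mp hb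
    exact ⟨hk, Ψop c b (sop k hk c h1) h2⟩
  · obtain ⟨hk, -, c, a1, a2⟩ := (hB _ _).mp h1
    obtain ⟨hl, -, d, b1, b2⟩ := (hB _ _).mp h2
    rcases nat_tri hk hl with e | e | e
    · exact absurd h3 (later l hl k c d b q e b1 a1 a2 ((b2 q).mp h4).1)
    · exact e
    · exact absurd h4 (later k hk l d c b' q e a1 b1 b2 ((a2 q).mp h3).1)
  · obtain ⟨-, -, c, a1, a2⟩ := (hB _ _).mp h1
    obtain ⟨-, -, d, b1, b2⟩ := (hB _ _).mp h2
    obtain rfl := s2 _ _ _ a1 b1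
    exact ext fun q => by rw [a2, b2]

theorem Codes.false (h : Codes P R p₀ w S) {one : M} (hF : IsForcing P R one) (hc : CCC3 P R)
    (hl : Lin w) (hw : ¬Ctbl w) : False := by
  obtain ⟨B, B1, B2, B3, B4⟩ := h.partition ⟨one, hF⟩ hl hw
  have lin : ∀ c n, Lin (Aset S w c n) := fun c n a b ha hb =>
    hl a b (mem_Aset.mp ha).1 (mem_Aset.mp hb).1
  have coverP : ∀ a, Mem a w → ∃ k, Mem k (om M) ∧ Mem a (Aset S w P k) := by
    intro a ha
    obtain ⟨r, n, r1, r2⟩ := h.onto a p₀ ha (hF.le_refl h.mem)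
    exact ⟨n, (h.bound _ _ _ r2).2.1, mem_Aset.mpr ⟨ha, r, r1.1, r2⟩⟩
  let Tot : M → M → M → Prop := fun k b m =>
    ∀ x : M, Mem x (Aset S w P k) → ∃ y : M, Iso (Aset S w P k) (Aset S w b m) x y
  have hTot : D3 Tot := by unfold Tot; infer_instance
  have := @hTot.sub
  apply hw
  by_cases hcase : ∀ k b, Mem (pr k b) B → ∃ m, Mem m (om M) ∧ Tot k b m
  · let H : M → M → M → Prop := fun k b m =>
      Mem (pr k b) B ∧ Mem m (om M) ∧ Tot k b m ∧ ∀ m' : M, Mem m' m → ¬Tot k b m'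
    have hH : D3 H := by unfold H; infer_instance
    have := @hH.sub
    have Hu : ∀ k b m b' m', H k b m → H k b' m' → b = b' ∧ m = m' := by
      rintro k b m b' m' ⟨a1, a2, a3, a4⟩ ⟨b1, b2, b3, b4⟩
      obtain rfl := B4 _ _ _ a1 b1
      exact ⟨rfl, nat_min_unique (φ := fun m => Tot k b m) a2 b2 a3 b3 a4 b4⟩
    let V : M → M → Prop := fun q a => ∃ k b m : M, H k b m ∧ Mem q b ∧ Mem (pr q (pr m a)) S
    have hV : D2 V := by unfold V; infer_instance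
    have := @hV.sub
    obtain ⟨U, hU⟩ := sep w (fun a => ∃ q : M, Mem q P ∧ V q a)
    have cU : Ctbl U := by
      refine ctbl_values hF hc V ?_ ?_ U (fun a ha => ((hU a).mp ha).2)
      · rintro q r a ⟨k, b, m, a1, a2, a3⟩ hr
        exact ⟨k, b, m, a1, (B2 _ _ a1.1).2.2.2 q r a2 hr, h.mono _ _ _ _ a3 hr⟩
      · rintro q a a' ⟨k, b, m, a1, a2, a3⟩ ⟨k', b', m', b1, b2, b3⟩
        obtain rfl := B3 _ _ _ _ _ a1.1 b1.1 a2 b2
        obtain ⟨rfl, rfl⟩ := Hu _ _ _ _ _ a1 b1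
        exact h.func _ _ _ _ a3 b3
    obtain ⟨f, f1, f2⟩ := cU.inj
    refine ctbl_of2 w (fun k i x => ∃ b m y : M, H k b m ∧ Mem (pr y i) f ∧
      Iso (Aset S w P k) (Aset S w b m) x y) ?_ ?_
    · rintro k i x x' ⟨b, m, y, a1, a2, a3⟩ ⟨b', m', y', b1, b2, b3⟩
      obtain ⟨rfl, rfl⟩ := Hu _ _ _ _ _ a1 b1
      obtain rfl := f2 _ _ _ a2 b2
      exact a3.inj (lin _ _) b3
    · intro x hx
      obtain ⟨k, hk, hxk⟩ := coverP x hx
      obtain ⟨b, hb⟩ := B1 k hk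
      obtain ⟨m, m1, m2, m3⟩ := nat_min (fun m => Tot k b m) (hcase k b hb)
      obtain ⟨y, hy⟩ := m2 x hxk
      obtain ⟨y1, q, q1, q2⟩ := mem_Aset.mp (iso_iff.mp hy).2.1
      have hH : H k b m := ⟨hb, m1, m2, m3⟩
      obtain ⟨i, i1, i2⟩ := f1 y ((hU y).mpr
        ⟨y1, q, (h.bound _ _ _ q2).1.1, k, b, m, hH, q1, q2⟩)
      exact ⟨k, i, hk, i1, b, m, y, hH, i2, hy⟩
  · push Not at hcase
    obtain ⟨k, b, hb, hn⟩ := hcase
    have cB : Ctbl (Aset S w P k) := by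
      refine ctbl_values hF hc (fun q a => Mem (pr q (pr k a)) S)
        (fun q r a h1 h2 => h.mono _ _ _ _ h1 h2) (fun q a b h1 h2 => h.func _ _ _ _ h1 h2) _ ?_
      intro a ha
      exact (mem_Aset.mp ha).2
    obtain ⟨f, f1, f2⟩ := cB.inj
    refine ctbl_of2 w (fun m i y => ∃ x : M, Mem (pr x i) f ∧
      Iso (Aset S w P k) (Aset S w b m) x y) ?_ ?_
    · rintro m i y y' ⟨x, a1, a2⟩ ⟨x', b1, b2⟩
      obtain rfl := f2 _ _ _ a1 b1
      exact a2.func (lin _ _) b2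
    · intro y hy
      obtain ⟨m, m1, m2⟩ := h.cover (B2 _ _ hb).2 hy
      obtain ⟨x, hx⟩ := (iso_total (lin P k) (lin b m)).resolve_left (hn m m1) y
        (mem_Aset.mpr ⟨hy, m2⟩)
      obtain ⟨i, i1, i2⟩ := f1 x (iso_iff.mp hx).1
      exact ⟨m, i, m1, i1, x, i2, hx⟩

end Pool.Agent.P.MP_6e04fb_lc
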