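import Pool.Agent.P.MP_6e04fb_lc.Basic

/-!
Countability and comparison of sets of ordinals inside a model of ZF.
-/

open FirstOrder

set_option synthInstance.maxSize 100000

namespace Pool.Agent.P.MP_6e04fb_lc

variable {M : Type*} [Language.graph.Structure M] [hZ : Fact (IsZF M)]
variable {α : Type} {s t u v : (α → M) → M}

lemma Ctbl.inj {x : M} (h : Ctbl x) : ∃ f : M, (∀ a, Mem a x → ∃ n, Mem n (om M) ∧ Mem (pr a n) f) ∧
    ∀ a b n, Mem (pr a n) f → Mem (pr b n) f → a = b := by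
  obtain ⟨w, f, hw, h1, -, h3⟩ := h
  obtain rfl := om_unique hw
  simp only [rel_iff] at h1 h3
  exact ⟨f, h1, h3⟩

lemma ctbl_of (x : M) (φ : M → M → Prop) [hφ : D2 φ] (func : ∀ n a b, φ n a → φ n b → a = b)
    (cover : ∀ a, Mem a x → ∃ n, Mem n (om M) ∧ φ n a) : Ctbl x := by
  have := @hφ.sub
  obtain ⟨f, hf⟩ := sep2 x (om M) (fun a n => φ n a ∧ ∀ m : M, Mem m n → ¬φ m a)
  refine ⟨om M, f, om_spec, fun a ha => ?_, fun a n m h1 h2 => ?_, fun a b n h1 h2 => ?_⟩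
  · obtain ⟨n, h1, h2, h3⟩ := nat_min (fun n => φ n a) (cover a ha)
    exact ⟨n, h1, rel_iff.mpr ((hf _ _).mpr ⟨ha, h1, h2, h3⟩)⟩
  · rw [rel_iff, hf] at h1 h2
    exact nat_min_unique (φ := fun n => φ n a) h1.2.1 h2.2.1 h1.2.2.1 h2.2.2.1 h1.2.2.2 h2.2.2.2
  · rw [rel_iff, hf] at h1 h2
    exact func n a b h1.2.2.1 h2.2.2.1

/-- enumeration of the triangle -/
lemma exists_triangle : ∃ s : M,
    (∀ n a b a' b', Mem (pr n (pr a b)) s → Mem (pr n (pr a' b')) s → a = a' ∧ b = b') ∧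
    (∀ n a b, Mem (pr n (pr a b)) s → Mem n (om M) ∧ (Mem a n ∨ a = n)) ∧
    (∀ a b, Mem a (om M) → (Mem b a ∨ b = a) → ∃ n, Mem (pr n (pr a b)) s) := by
  let Φ : M → M → Prop := fun y y' =>
    (∃ a b : M, y = pr a b ∧ ((b = a ∧ y' = pr (suc a) (emp M)) ∨ (¬b = a ∧ y' = pr a (suc b)))) ∨
      ((¬∃ a b : M, y = pr a b) ∧ y' = y)
  have hΦ : D2 Φ := by unfold Φ; infer_instance
  have hf : ∀ y, ∃! y', Φ y y' := by
    intro y
    by_cases h : ∃ a b : M, y = pr a b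
    · obtain ⟨a, b, rfl⟩ := h
      by_cases hab : b = a
      · refine ⟨_, Or.inl ⟨a, b, rfl, Or.inl ⟨hab, rfl⟩⟩, ?_⟩
        rintro y' (⟨a', b', e, h⟩ | ⟨h, -⟩)
        · obtain ⟨rfl, rfl⟩ := pr_inj.mp e
          tauto
        · exact absurd ⟨a, b, rfl⟩ h
      · refine ⟨_, Or.inl ⟨a, b, rfl, Or.inr ⟨hab, rfl⟩⟩, ?_⟩
        rintro y' (⟨a', b', e, h⟩ | ⟨h, -⟩)
        · obtain ⟨rfl, rfl⟩ := pr_inj.mp e
          tauto
        · exact absurd ⟨a, b, rfl⟩ h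
    · refine ⟨y, Or.inr ⟨h, rfl⟩, ?_⟩
      rintro y' (⟨a', b', e, -⟩ | ⟨-, h⟩)
      · exact absurd ⟨a', b', e⟩ h
      · exact h
  obtain ⟨s, -, s2, s3, s4, s5⟩ := om_rec (pr (emp M) (emp M)) Φ hf
  have step1 : ∀ n a, Mem (pr n (pr a a)) s → Mem (pr (suc n) (pr (suc a) (emp M))) s :=
    fun n a h => s5 n _ _ h (Or.inl ⟨a, a, rfl, Or.inl ⟨rfl, rfl⟩⟩)
  have step2 : ∀ n a b, ¬b = a → Mem (pr n (pr a b)) s → Mem (pr (suc n) (pr a (suc b))) s :=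
    fun n a b hab h => s5 n _ _ h (Or.inl ⟨a, b, rfl, Or.inr ⟨hab, rfl⟩⟩)
  refine ⟨s, fun n a b a' b' h1 h2 => pr_inj.mp (s2 n _ _ h1 h2), fun n a b h => ⟨s3 _ _ h, ?_⟩, ?_⟩
  · have key : ∀ n, Mem n (om M) → ∃ a b : M, Mem (pr n (pr a b)) s ∧ (Mem a n ∨ a = n) := by
      refine om_ind (fun n => ∃ a b : M, Mem (pr n (pr a b)) s ∧ (Mem a n ∨ a = n))
        ⟨_, _, s4, Or.inr rfl⟩ ?_
      rintro n hn ⟨a, b, h1, h2⟩
      by_cases hab : b = a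
      · subst hab
        refine ⟨_, _, step1 n b h1, ?_⟩
        rcases h2 with h2 | rfl
        · rcases nat_tri (suc_mem_om (om_trans hn h2)) (suc_mem_om hn) with h | h | h
          · exact Or.inl h
          · exact Or.inr h
          · exfalso
            rcases mem_suc.mp h with h | h
            · exact mem_asymm h2
                (nat_trans (om_trans hn h2) h (mem_suc.mpr (Or.inr rfl)))
            · exact mem_asymm h2 (h ▸ mem_suc.mpr (Or.inr rfl))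
        · exact Or.inr rfl
      · exact ⟨_, _, step2 n a b hab h1, Or.inl (mem_suc.mpr h2)⟩
    obtain ⟨a', b', h1, h2⟩ := key n (s3 _ _ h)
    obtain ⟨rfl, -⟩ := pr_inj.mp (s2 n _ _ h h1)
    exact h2
  · have row : ∀ a, Mem a (om M) → (∃ n, Mem (pr n (pr a (emp M))) s) →
        ∀ b, Mem b (om M) → (Mem b a ∨ b = a) → ∃ n, Mem (pr n (pr a b)) s := by
      intro a ha h0
      refine om_ind (fun b => (Mem b a ∨ b = a) → ∃ n : M, Mem (pr n (pr a b)) s) (fun _ => h0) ?_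
      intro b _ ih h
      have hba : Mem b a := by
        rcases h with h | h
        · exact nat_trans ha h (mem_suc.mpr (Or.inr rfl))
        · exact h ▸ mem_suc.mpr (Or.inr rfl)
      obtain ⟨n, hn⟩ := ih (Or.inl hba)
      exact ⟨_, step2 n a b (fun e => mem_irrefl a (e ▸ hba)) hn⟩
    have col : ∀ a, Mem a (om M) → ∃ n, Mem (pr n (pr a (emp M))) s := by
      refine om_ind (fun a => ∃ n : M, Mem (pr n (pr a (emp M))) s) ⟨_, s4⟩ ?_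
      intro a ha ih
      obtain ⟨n, hn⟩ := row a ha ih a ha (Or.inr rfl)
      exact ⟨_, step1 n a hn⟩
    intro a b ha hb
    refine row a ha (col a ha) b ?_ hb
    rcases hb with hb | rfl
    · exact om_trans ha hb
    · exact ha

lemma ctbl_of2 (x : M) (φ : M → M → M → Prop) [hφ : D3 φ]
    (func : ∀ k m a b, φ k m a → φ k m b → a = b)
    (cover : ∀ a, Mem a x → ∃ k m, Mem k (om M) ∧ Mem m (om M) ∧ φ k m a) : Ctbl x := by
  have := @hφ.sub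
  obtain ⟨s, s1, s2, s3⟩ := exists_triangle (M := M)
  refine ctbl_of x (fun n y => ∃ a a' k m : M,
    Mem (pr n (pr a k)) s ∧ Mem (pr a (pr a' m)) s ∧ φ k m y) ?_ ?_
  · rintro n y y' ⟨a, a', k, m, h1, h2, h3⟩ ⟨b, b', l, r, h4, h5, h6⟩
    obtain ⟨rfl, rfl⟩ := s1 _ _ _ _ _ h1 h4
    obtain ⟨rfl, rfl⟩ := s1 _ _ _ _ _ h2 h5
    exact func _ _ _ _ h3 h6
  · intro y hy
    obtain ⟨k, m, hk, hm, h⟩ := cover y hy
    obtain ⟨a', ha', h1, h2⟩ : ∃ a', Mem a' (om M) ∧ (Mem k a' ∨ k = a') ∧ (Mem m a' ∨ m = a') := by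
      rcases nat_tri hk hm with h | h | h
      · exact ⟨m, hm, Or.inl h, Or.inr rfl⟩
      · exact ⟨m, hm, Or.inr h, Or.inr rfl⟩
      · exact ⟨k, hk, Or.inr rfl, Or.inl h⟩
    obtain ⟨a, ha⟩ := s3 a' m ha' h2
    obtain ⟨h3, h4⟩ := s2 _ _ _ ha
    have h5 : Mem k a ∨ k = a := by
      rcases h4 with h4 | rfl
      · rcases h1 with h1 | rfl
        · exact Or.inl (nat_trans h3 h4 h1)
        · exact Or.inl h4
      · exact h1
    obtain ⟨n, hn⟩ := s3 a k h3 h5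
    exact ⟨n, (s2 _ _ _ hn).1, a, a', k, m, hn, ha, h⟩

/-- `x` and `y` correspond under the canonical isomorphism of initial segments of `X` and `Y` -/
def Iso (X Y x y : M) : Prop :=
  ∃ Z, Mem (pr x y) Z ∧ ∀ a b : M, Mem (pr a b) Z → Mem a X ∧ Mem b Y ∧
    (∀ a' : M, Mem a' a → Mem a' X → ∃ b' : M, Mem b' b ∧ Mem (pr a' b') Z) ∧
    (∀ b' : M, Mem b' b → Mem b' Y → ∃ a' : M, Mem a' a ∧ Mem (pr a' b') Z)

instance Df.iso [Tm s] [Tm t] [Tm u] [Tm v] : Df (fun w => Iso (s w) (t w) (u w) (v w)) := by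
  unfold Iso; infer_instance

lemma iso_iff {X Y x y : M} : Iso X Y x y ↔ Mem x X ∧ Mem y Y ∧
    (∀ a, Mem a x → Mem a X → ∃ b, Mem b y ∧ Iso X Y a b) ∧
    (∀ b, Mem b y → Mem b Y → ∃ a, Mem a x ∧ Iso X Y a b) := by
  have fw : ∀ x y, Iso X Y x y → Mem x X ∧ Mem y Y ∧
      (∀ a, Mem a x → Mem a X → ∃ b, Mem b y ∧ Iso X Y a b) ∧
      (∀ b, Mem b y → Mem b Y → ∃ a, Mem a x ∧ Iso X Y a b) := by
    rintro x y ⟨Z, h1, h2⟩
    obtain ⟨a1, a2, a3, a4⟩ := h2 x y h1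
    refine ⟨a1, a2, fun a ha ha' => ?_, fun b hb hb' => ?_⟩
    · obtain ⟨b, hb, h⟩ := a3 a ha ha'
      exact ⟨b, hb, Z, h, h2⟩
    · obtain ⟨a, ha, h⟩ := a4 b hb hb'
      exact ⟨a, ha, Z, h, h2⟩
  refine ⟨fw x y, fun h => ?_⟩
  obtain ⟨Z, hZ⟩ := sep2 X Y (fun x y =>
    (∀ a : M, Mem a x → Mem a X → ∃ b : M, Mem b y ∧ Iso X Y a b) ∧
    (∀ b : M, Mem b y → Mem b Y → ∃ a : M, Mem a x ∧ Iso X Y a b))
  refine ⟨Z, (hZ _ _).mpr h, fun a b hab => ?_⟩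
  obtain ⟨a1, a2, a3, a4⟩ := (hZ _ _).mp hab
  refine ⟨a1, a2, fun a' ha ha' => ?_, fun b' hb hb' => ?_⟩
  · obtain ⟨b', hb, h⟩ := a3 a' ha ha'
    exact ⟨b', hb, (hZ _ _).mpr (fw _ _ h)⟩
  · obtain ⟨a', ha, h⟩ := a4 b' hb hb'
    exact ⟨a', ha, (hZ _ _).mpr (fw _ _ h)⟩

lemma Iso.symm {X Y x y : M} (h : Iso X Y x y) : Iso Y X y x := by
  obtain ⟨Z, hZ⟩ := sep2 Y X (fun y x => Iso X Y x y)
  have e : ∀ a b, Iso X Y a b → Mem (pr b a) Z := fun a b h =>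
    (hZ _ _).mpr ⟨(iso_iff.mp h).2.1, (iso_iff.mp h).1, h⟩
  refine ⟨Z, e _ _ h, fun b a hab => ?_⟩
  obtain ⟨a1, a2, a3, a4⟩ := iso_iff.mp ((hZ _ _).mp hab).2.2
  refine ⟨a2, a1, fun b' hb hb' => ?_, fun a' ha ha' => ?_⟩
  · obtain ⟨a', ha, h⟩ := a4 b' hb hb'
    exact ⟨a', ha, e _ _ h⟩
  · obtain ⟨b', hb, h⟩ := a3 a' ha ha'
    exact ⟨b', hb, e _ _ h⟩

/-- linearly ordered by membership -/
def Lin (Y : M) : Prop := ∀ a b, Mem a Y → Mem b Y → Mem a b ∨ a = b ∨ Mem b a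

lemma Iso.func {X Y : M} (hY : Lin Y) {x y y' : M} (h1 : Iso X Y x y) (h2 : Iso X Y x y') :
    y = y' := by
  refine mem_ind X (fun x => ∀ y y' : M, Iso X Y x y → Iso X Y x y' → y = y') ?_ x
    (iso_iff.mp h1).1 y y' h1 h2
  intro x _ ih
  have key : ∀ y y', Iso X Y x y → Iso X Y x y' → ¬Mem y y' := by
    intro y y' h1 h2 h
    obtain ⟨-, a2, a3, -⟩ := iso_iff.mp h1
    obtain ⟨x', b1, b2⟩ := (iso_iff.mp h2).2.2.2 y h a2
    obtain ⟨y'', c1, c2⟩ := a3 x' b1 (iso_iff.mp b2).1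
    obtain rfl := ih x' b1 (iso_iff.mp b2).1 _ _ b2 c2
    exact mem_irrefl _ c1
  intro y y' h1 h2
  rcases hY y y' (iso_iff.mp h1).2.1 (iso_iff.mp h2).2.1 with h | h | h
  · exact absurd h (key _ _ h1 h2)
  · exact h
  · exact absurd h (key _ _ h2 h1)

lemma Iso.inj {X Y : M} (hX : Lin X) {x x' y : M} (h1 : Iso X Y x y) (h2 : Iso X Y x' y) :
    x = x' := h1.symm.func hX h2.symm

lemma iso_total {X Y : M} (hX : Lin X) (hY : Lin Y) :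
    (∀ x, Mem x X → ∃ y, Iso X Y x y) ∨ (∀ y, Mem y Y → ∃ x, Iso X Y x y) := by
  have half : ∀ {X Y : M}, Lin Y → ∀ x₀ y₀, Mem y₀ Y → (¬∃ x, Iso X Y x y₀) →
      (∀ a, Mem a x₀ → Mem a X → ∃ y, Iso X Y a y) →
      ∀ a, Mem a x₀ → Mem a X → ∃ b, Mem b y₀ ∧ Iso X Y a b := by
    intro X Y hY x₀ y₀ hy hn hm a ha ha'
    obtain ⟨b, hb⟩ := hm a ha ha'
    refine ⟨b, ?_, hb⟩
    rcases hY b y₀ (iso_iff.mp hb).2.1 hy with h | h | h
    · exact h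
    · exact absurd ⟨a, h ▸ hb⟩ hn
    · obtain ⟨a', -, h'⟩ := (iso_iff.mp hb).2.2.2 y₀ h hy
      exact absurd ⟨a', h'⟩ hn
  by_contra hc
  rw [not_or] at hc
  obtain ⟨x₀, a1, a2, a3⟩ := exists_min X (fun x => ¬∃ y : M, Iso X Y x y) (by simpa using hc.1)
  obtain ⟨y₀, b1, b2, b3⟩ := exists_min Y (fun y => ¬∃ x : M, Iso X Y x y) (by simpa using hc.2)
  apply a2
  refine ⟨y₀, iso_iff.mpr ⟨a1, b1, ?_, ?_⟩⟩
  · exact half hY x₀ y₀ b1 b2 (fun a h1 h2 => not_not.mp (a3 a h1 h2))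
  · intro b h1 h2
    obtain ⟨a, h3, h4⟩ := half (X := Y) (Y := X) hX y₀ x₀ a1
      (fun ⟨y, hy⟩ => a2 ⟨y, hy.symm⟩)
      (fun b h1 h2 => let ⟨x, hx⟩ := not_not.mp (b3 b h1 h2); ⟨x, hx.symm⟩) b h1 h2
    exact ⟨a, h3, h4.symm⟩

end Pool.Agent.P.MP_6e04fb_lc
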