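import Pool.Agent.P.MP_6e04fb_lc.Defs

/-!
Definability with parameters, found by instance search.
-/

open FirstOrder

set_option synthInstance.maxSize 100000

namespace Pool.Agent.P.MP_6e04fb_lc

variable {M : Type*} [Language.graph.Structure M]

class Df {α : Type} (P : (α → M) → Prop) : Prop where
  out : (Set.univ : Set M).Definable Language.graph {v | P v}

class Tm {α : Type} (t : (α → M) → M) : Prop where
  out : (Set.univ : Set M).DefinableFun Language.graph t

variable {α : Type} {P Q : (α → M) → Prop} {s t u : (α → M) → M}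

instance (priority := low) Df.const (p : Prop) : Df (fun _ : α → M => p) := by
  by_cases h : p
  · exact ⟨by simp [h]⟩
  · exact ⟨by simp [h]⟩

instance Df.and [h1 : Df P] [h2 : Df Q] : Df (fun v => P v ∧ Q v) := ⟨h1.out.inter h2.out⟩

instance Df.or [h1 : Df P] [h2 : Df Q] : Df (fun v => P v ∨ Q v) := ⟨h1.out.union h2.out⟩

instance Df.not [h1 : Df P] : Df (fun v => ¬P v) := ⟨h1.out.compl⟩

lemma Df.congr (h : Df P) (e : ∀ v, P v ↔ Q v) : Df Q := by
  have : P = Q := funext fun v => propext (e v)
  rwa [← this]

instance Df.imp [Df P] [Df Q] : Df (fun v => P v → Q v) :=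
  Df.congr (P := fun v => ¬P v ∨ Q v) inferInstance (fun _ => by tauto)

instance Df.iff [Df P] [Df Q] : Df (fun v => P v ↔ Q v) :=
  Df.congr (P := fun v => (P v → Q v) ∧ (Q v → P v)) inferInstance (fun _ => by tauto)

instance Df.ex {P : (α → M) → M → Prop}
    [h : Df (fun w : Option α → M => P (fun a => w (some a)) (w none))] :
    Df (fun v => ∃ x, P v x) := by
  have h1 := (h.out.preimage_comp (β := α ⊕ Unit)
    (fun o => Option.elim o (Sum.inr ()) Sum.inl)).exists_of_finite
  refine ⟨?_⟩
  convert h1 using 1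
  ext v
  simp only [Set.mem_ofPred_eq, Set.mem_preimage]
  constructor
  · rintro ⟨x, hx⟩
    exact ⟨fun _ => x, hx⟩
  · rintro ⟨x, hx⟩
    exact ⟨x (), hx⟩

instance Df.all {P : (α → M) → M → Prop}
    [Df (fun w : Option α → M => P (fun a => w (some a)) (w none))] :
    Df (fun v => ∀ x, P v x) :=
  Df.congr (P := fun v => ¬∃ x, ¬P v x) inferInstance (fun _ => by simp)

instance Tm.var (a : α) : Tm (fun v : α → M => v a) := ⟨Set.DefinableFun.proj _⟩

instance Tm.const (c : M) : Tm (fun _ : α → M => c) :=
  ⟨Language.definableFun_const _ _ (Set.mem_univ c)⟩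

instance Df.eq [h1 : Tm s] [h2 : Tm t] : Df (fun v => s v = t v) := ⟨h1.out.ofPred_eq h2.out⟩

instance Df.mem [h1 : Tm s] [h2 : Tm t] : Df (fun v => Mem (s v) (t v)) := by
  have hF : (Set.univ : Set M).DefinableMap Language.graph (fun v => ![s v, t v]) := by
    intro i
    fin_cases i
    · exact h1.out
    · exact h2.out
  have h0 : (Set.univ : Set M).Definable Language.graph
      {x : Fin 2 → M | Language.Structure.RelMap Language.adj x} := by
    apply Set.Definable.mono _ (Set.empty_subset _)
    rw [Set.empty_definable_iff]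
    refine ⟨Language.adj.formula₂ (Language.Term.var 0) (Language.Term.var 1), ?_⟩
    ext x
    simp only [Set.mem_ofPred_eq, Language.Formula.realize_rel₂, Language.Term.realize_var]
    have : ![x 0, x 1] = x := by ext i; fin_cases i <;> rfl
    rw [this]
  exact ⟨h0.preimage_map hF⟩

instance (priority := low) Tm.lift (t : (α → M) → M) [h : Tm t] {β : Type} (f : α → β) :
    Tm (fun w : β → M => t (fun a => w (f a))) := by
  refine ⟨?_⟩
  have := h.out.preimage_comp (β := Option β) (Option.map f)
  exact this

/-- definable unary predicate -/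
class D1 (φ : M → Prop) : Prop where
  sub : ∀ {α : Type} (t : (α → M) → M) [Tm t], Df (fun v => φ (t v))

class D2 (φ : M → M → Prop) : Prop where
  sub : ∀ {α : Type} (s t : (α → M) → M) [Tm s] [Tm t], Df (fun v => φ (s v) (t v))

class D3 (φ : M → M → M → Prop) : Prop where
  sub : ∀ {α : Type} (s t u : (α → M) → M) [Tm s] [Tm t] [Tm u],
    Df (fun v => φ (s v) (t v) (u v))

instance D1.of {φ : M → Prop} [h : Df (fun v : Fin 1 → M => φ (v 0))] : D1 φ := by
  refine ⟨fun t ht => ⟨?_⟩⟩
  have hF : (Set.univ : Set M).DefinableMap Language.graph (fun v => ![t v]) := by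
    intro i
    fin_cases i
    exact ht.out
  exact h.out.preimage_map hF

instance D2.of {φ : M → M → Prop} [h : Df (fun v : Fin 2 → M => φ (v 0) (v 1))] : D2 φ := by
  refine ⟨fun s t hs ht => ⟨?_⟩⟩
  have hF : (Set.univ : Set M).DefinableMap Language.graph (fun v => ![s v, t v]) := by
    intro i
    fin_cases i
    · exact hs.out
    · exact ht.out
  exact h.out.preimage_map hF

instance D3.of {φ : M → M → M → Prop} [h : Df (fun v : Fin 3 → M => φ (v 0) (v 1) (v 2))] :
    D3 φ := by
  refine ⟨fun s t u hs ht hu => ⟨?_⟩⟩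
  have hF : (Set.univ : Set M).DefinableMap Language.graph (fun v => ![s v, t v, u v]) := by
    intro i
    fin_cases i
    · exact hs.out
    · exact ht.out
    · exact hu.out
  exact h.out.preimage_map hF

instance Df.sub [Tm s] [Tm t] : Df (fun v => Sub (s v) (t v)) := by
  unfold Sub; infer_instance

instance Df.inductive [Tm s] : Df (fun v => Inductive (s v)) := by
  unfold Inductive; infer_instance

instance Df.rel [Tm s] [Tm t] [Tm u] : Df (fun v => Rel (s v) (t v) (u v)) := by
  unfold Rel; infer_instance

variable [hZ : Fact (IsZF M)]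

lemma ext {x y : M} (h : ∀ z, Mem z x ↔ Mem z y) : x = y := hZ.out.ext x y h

lemma Tm.of_mem (t : (α → M) → M)
    [Df (fun w : Option α → M => Mem (w none) (t (fun a => w (some a))))] : Tm t := by
  have h : Df (fun w : Option α → M => ∀ z, Mem z (t (fun a => w (some a))) ↔ Mem z (w none)) := by
    have h2 : Df (fun w : Option (Option α) → M => Mem (w none) (t (fun a => w (some (some a))))) :=
      ⟨(Df.out (P := fun w : Option α → M => Mem (w none) (t (fun a => w (some a))))).preimage_comp
        (β := Option (Option α)) (Option.map some)⟩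
    infer_instance
  refine ⟨?_⟩
  have := h.out
  unfold Set.DefinableFun
  convert this using 1
  ext w
  simp only [Function.tupleGraph, Set.mem_ofPred_eq]
  constructor
  · intro e z
    rw [← e]; rfl
  · intro e
    exact ext e

lemma sep (a : M) (φ : M → Prop) [h : D1 φ] : ∃ b, ∀ x, Mem x b ↔ Mem x a ∧ φ x :=
  hZ.out.sep {x | φ x} (h.sub (fun v : Fin 1 → M => v 0)).out a

lemma repl (a : M) (φ : M → M → Prop) [h : D2 φ] (hf : ∀ x, Mem x a → ∃! y, φ x y) :
    ∃ b, ∀ y, Mem y b ↔ ∃ x, Mem x a ∧ φ x y :=
  hZ.out.repl {z | φ z.1 z.2} (h.sub (fun v : Fin 2 → M => v 0) (fun v => v 1)).out a hf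

end Pool.Agent.P.MP_6e04fb_lc
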