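import Mathlib

/-!
Models of ZF, forcing notions in them, and generic extensions.
The language of set theory is the language with one binary relation symbol, which Mathlib calls
`FirstOrder.Language.graph`; its symbol `adj` is read as membership.
-/

open FirstOrder

namespace Pool.Agent.P.MP_6e04fb_lc

variable {M : Type*} [Language.graph.Structure M] {N : Type*} [Language.graph.Structure N]

/-- `x ∈ y` in the structure. -/
def Mem (x y : M) : Prop := Language.Structure.RelMap Language.adj ![x, y]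

/-- `x ⊆ y`. -/
def Sub (x y : M) : Prop := ∀ z, Mem z x → Mem z y

/-- `w` contains the empty set and is closed under `x ↦ x ∪ {x}`. -/
def Inductive (w : M) : Prop :=
  (∃ e, Mem e w ∧ ∀ z, ¬Mem z e) ∧
    ∀ x, Mem x w → ∃ s, Mem s w ∧ ∀ z, Mem z s ↔ Mem z x ∨ z = x

/-- `M` is a model of ZF (no choice): extensionality, foundation, pairing, union, power set,
infinity, and the separation and replacement schemes for all first order formulas with
parameters. -/
structure IsZF (M : Type*) [Language.graph.Structure M] : Prop where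
  ext : ∀ x y : M, (∀ z, Mem z x ↔ Mem z y) → x = y
  found : ∀ x : M, (∃ y, Mem y x) → ∃ y, Mem y x ∧ ∀ z, Mem z y → ¬Mem z x
  pair : ∀ a b : M, ∃ c, ∀ z, Mem z c ↔ z = a ∨ z = b
  union : ∀ a : M, ∃ u, ∀ z, Mem z u ↔ ∃ y, Mem y a ∧ Mem z y
  power : ∀ a : M, ∃ p, ∀ z, Mem z p ↔ Sub z a
  inf : ∃ w : M, Inductive w
  sep : ∀ A : Set M, Set.Definable₁ Set.univ Language.graph A →
    ∀ a : M, ∃ b, ∀ x, Mem x b ↔ Mem x a ∧ x ∈ A
  repl : ∀ F : Set (M × M), Set.Definable₂ Set.univ Language.graph F →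
    ∀ a : M, (∀ x, Mem x a → ∃! y, (x, y) ∈ F) →
      ∃ b, ∀ y, Mem y b ↔ ∃ x, Mem x a ∧ (x, y) ∈ F

/-- The Kuratowski pair `⟨a, b⟩ = {{a}, {a, b}}` is an element of `r`. -/
def Rel (r a b : M) : Prop :=
  ∃ c, Mem c r ∧ ∀ z, Mem z c ↔ (∀ t, Mem t z ↔ t = a) ∨ (∀ t, Mem t z ↔ t = a ∨ t = b)

/-- `x` is countable: some injective function `f` maps `x` into `ω`, the least inductive set. -/
def Ctbl (x : M) : Prop :=
  ∃ w f : M, (Inductive w ∧ ∀ v, Inductive v → Sub w v) ∧
    (∀ a, Mem a x → ∃ n, Mem n w ∧ Rel f a n) ∧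
    (∀ a n m, Rel f a n → Rel f a m → n = m) ∧ (∀ a b n, Rel f a n → Rel f b n → a = b)

/-- `w` is `ω₁`: an ordinal (transitive and linearly ordered by membership) which is uncountable
while all its elements are countable. -/
def IsOmegaOne (w : M) : Prop :=
  (∀ a, Mem a w → Sub a w) ∧ (∀ a b, Mem a w → Mem b w → Mem a b ∨ a = b ∨ Mem b a) ∧
    ¬Ctbl w ∧ ∀ a, Mem a w → Ctbl a

/-- `(P, R)` is a preorder (`p ≤ q` is `⟨p, q⟩ ∈ R`) with maximum `one`. -/
structure IsForcing (P R one : M) : Prop where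
  refl : ∀ p, Mem p P → Rel R p p
  trans : ∀ p q r, Mem p P → Mem q P → Mem r P → Rel R p q → Rel R q r → Rel R p r
  one_mem : Mem one P
  le_one : ∀ p, Mem p P → Rel R p one

/-- `D ⊆ P` and every condition is compatible with some element of `D`. -/
def Predense (P R D : M) : Prop :=
  Sub D P ∧ ∀ p, Mem p P → ∃ d, Mem d D ∧ ∃ r, Mem r P ∧ Rel R r p ∧ Rel R r d

/-- Every predense set contains a countable predense subset. -/
def CCC3 (P R : M) : Prop :=
  ∀ D, Predense P R D → ∃ D₀, Sub D₀ D ∧ Ctbl D₀ ∧ Predense P R D₀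

/-- `y = val_G(τ)`: some function `v` with `v(τ) = y`, whose domain is closed under passing to
subnames, satisfies `v(σ) = {v(π) : ⟨π, p⟩ ∈ σ for some p ∈ G}` on its domain. -/
def IsVal (G τ y : N) : Prop :=
  ∃ v : N, Rel v τ y ∧ (∀ σ z z', Rel v σ z → Rel v σ z' → z = z') ∧
    (∀ σ z π p, Rel v σ z → Rel σ π p → ∃ t, Rel v π t) ∧
    ∀ σ z, Rel v σ z → ∀ t, Mem t z ↔ ∃ π p, Rel σ π p ∧ Mem p G ∧ Rel v π t

/-- `N = M[G]`: via `j`, `M` is a transitive substructure of `N`, the set `G` of `N` is a filter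
on `(P, R)` meeting every dense subset of `P` that lies in `M`, and every element of `N` is
`val_G(τ)` for some `τ` in `M`. -/
structure IsGenericExt (j : M ↪[Language.graph] N) (P R : M) (G : N) : Prop where
  transitive : ∀ x y, Mem y (j x) → ∃ z, y = j z
  sub : Sub G (j P)
  up : ∀ p q, Mem (j p) G → Mem q P → Rel R p q → Mem (j q) G
  directed : ∀ p q, Mem (j p) G → Mem (j q) G → ∃ r, Mem (j r) G ∧ Rel R r p ∧ Rel R r q
  generic : ∀ D, Sub D P → (∀ p, Mem p P → ∃ d, Mem d D ∧ Rel R d p) →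
    ∃ d, Mem d D ∧ Mem (j d) G
  val : ∀ y : N, ∃ τ : M, IsVal G (j τ) y

end Pool.Agent.P.MP_6e04fb_lc
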