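import Pool.Agent.P.MP_6e04fb_lc.Core

/-!
The forcing relation between names and ground model sets, its truth lemma, and the main theorem.
-/

open FirstOrder

set_option synthInstance.maxSize 100000

namespace Pool.Agent.P.MP_6e04fb_lc

variable {M : Type*} [Language.graph.Structure M] [hM : Fact (IsZF M)]
variable {N : Type*} [Language.graph.Structure N] [hN : Fact (IsZF N)]

/-- the recursive clause of `p` forces `σ = ǎ` -/
def Clause (P R Z p σ a : M) : Prop :=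
  (∀ π s q : M, Mem (pr π s) σ → Le P R q p → Le P R q s →
    ∃ r b : M, Le P R r q ∧ Mem b a ∧ Mem (pr r (pr π b)) Z) ∧
  (∀ b q : M, Mem b a → Le P R q p →
    ∃ r π s : M, Le P R r q ∧ Mem (pr π s) σ ∧ Le P R r s ∧ Mem (pr r (pr π b)) Z)

lemma exists_forcing (P R T A : M) : ∃ F : M, ∀ p σ a, Mem (pr p (pr σ a)) F ↔
    Mem p P ∧ Mem σ T ∧ Mem a A ∧ Clause P R F p σ a := by
  have : D2 (fun Z t : M => ∃ p σ a : M, t = pr p (pr σ a) ∧ Clause P R Z p σ a) := by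
    unfold Clause; infer_instance
  obtain ⟨F, hF⟩ := exists_fix (prod P (prod T A))
    (fun Z t : M => ∃ p σ a : M, t = pr p (pr σ a) ∧ Clause P R Z p σ a) (by
      rintro Z Z' t hs ⟨p, σ, a, e, h1, h2⟩
      refine ⟨p, σ, a, e, fun π s q a1 a2 a3 => ?_, fun b q a1 a2 => ?_⟩
      · obtain ⟨r, b, b1, b2, b3⟩ := h1 π s q a1 a2 a3
        exact ⟨r, b, b1, b2, hs _ b3⟩
      · obtain ⟨r, π, s, b1, b2, b3, b4⟩ := h2 b q a1 a2
        exact ⟨r, π, s, b1, b2, b3, hs _ b4⟩)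
  refine ⟨F, fun p σ a => ?_⟩
  rw [hF, pr_mem_prod, pr_mem_prod]
  constructor
  · rintro ⟨⟨h1, h2, h3⟩, p', σ', a', e, h⟩
    obtain ⟨rfl, e'⟩ := pr_inj.mp e
    obtain ⟨rfl, rfl⟩ := pr_inj.mp e'
    exact ⟨h1, h2, h3, h⟩
  · rintro ⟨h1, h2, h3, h⟩
    exact ⟨⟨h1, h2, h3⟩, p, σ, a, rfl, h⟩

omit hM hN in
lemma j_mem (j : M ↪[Language.graph] N) {x y : M} : Mem (j x) (j y) ↔ Mem x y := by
  have := j.map_rel Language.adj ![x, y]
  unfold Mem
  rw [← this]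
  have e : (j ∘ ![x, y]) = ![j x, j y] := by
    ext i; fin_cases i <;> rfl
  rw [e]

variable {j : M ↪[Language.graph] N} {P R one : M} {G : N}

namespace IsGenericExt

lemma j_upair (h : IsGenericExt j P R G) (a b : M) : j (upair a b) = upair (j a) (j b) := by
  apply ext
  intro z
  rw [mem_upair]
  constructor
  · intro hz
    obtain ⟨y, rfl⟩ := h.transitive _ _ hz
    rw [j_mem, mem_upair] at hz
    rcases hz with rfl | rfl
    · exact Or.inl rfl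
    · exact Or.inr rfl
  · rintro (rfl | rfl) <;> rw [j_mem, mem_upair] <;> simp

lemma j_pr (h : IsGenericExt j P R G) (a b : M) : j (pr a b) = pr (j a) (j b) := by
  unfold pr
  rw [h.j_upair, h.j_upair, h.j_upair]

lemma pr_mem (h : IsGenericExt j P R G) {π s : N} {σ : M} (hm : Mem (pr π s) (j σ)) :
    ∃ π₀ s₀, π = j π₀ ∧ s = j s₀ ∧ Mem (pr π₀ s₀) σ := by
  obtain ⟨c, hc⟩ := h.transitive _ _ hm
  have h1 : Mem (upair π s) (j c) := hc ▸ mem_upair.mpr (Or.inr rfl)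
  obtain ⟨d, hd⟩ := h.transitive _ _ h1
  obtain ⟨π₀, rfl⟩ := h.transitive d π (hd ▸ mem_upair.mpr (Or.inl rfl))
  obtain ⟨s₀, rfl⟩ := h.transitive d s (hd ▸ mem_upair.mpr (Or.inr rfl))
  exact ⟨π₀, s₀, rfl, rfl, by rwa [← h.j_pr, j_mem] at hm⟩

lemma om_sub (h : IsGenericExt j P R G) : Sub (om N) (j (om M)) := by
  apply om_spec.2
  rw [inductive_iff]
  constructor
  · have : emp N = j (emp M) := ext fun z => by
      refine ⟨fun hz => (not_mem_emp z hz).elim, fun hz => ?_⟩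
      obtain ⟨y, rfl⟩ := h.transitive _ _ hz
      exact (not_mem_emp y ((j_mem j).mp hz)).elim
    rw [this, j_mem]
    exact emp_mem_om
  · intro x hx
    obtain ⟨y, rfl⟩ := h.transitive _ _ hx
    have : suc (j y) = j (suc y) := ext fun z => by
      rw [mem_suc]
      constructor
      · rintro (hz | rfl)
        · obtain ⟨t, rfl⟩ := h.transitive _ _ hz
          rw [j_mem] at hz ⊢
          exact mem_suc.mpr (Or.inl hz)
        · rw [j_mem]; exact mem_suc.mpr (Or.inr rfl)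
      · intro hz
        obtain ⟨t, rfl⟩ := h.transitive _ _ hz
        rw [j_mem, mem_suc] at hz
        rcases hz with hz | rfl
        · exact Or.inl ((j_mem j).mpr hz)
        · exact Or.inr rfl
    rw [this, j_mem]
    exact suc_mem_om ((j_mem j).mp hx)

omit hM hN in
lemma mem_P (h : IsGenericExt j P R G) {p : M} (hp : Mem (j p) G) : Mem p P :=
  (j_mem j).mp (h.sub _ hp)

omit hM hN in
lemma up' (h : IsGenericExt j P R G) {p q : M} (hp : Mem (j p) G) (hq : Le P R p q) :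
    Mem (j q) G := h.up p q hp hq.2.1 hq.2.2

omit hM hN in
lemma meet (h : IsGenericExt j P R G) {p q : M} (hp : Mem (j p) G) (hq : Mem (j q) G) :
    ∃ r, Mem (j r) G ∧ Le P R r p ∧ Le P R r q := by
  obtain ⟨r, r1, r2, r3⟩ := h.directed p q hp hq
  exact ⟨r, r1, ⟨h.mem_P r1, h.mem_P hp, r2⟩, ⟨h.mem_P r1, h.mem_P hq, r3⟩⟩

omit hN in
lemma dense (h : IsGenericExt j P R G) (φ : M → Prop) [D1 φ]
    (hd : ∀ q, Mem q P → ∃ r, Le P R r q ∧ φ r) : ∃ r, Mem (j r) G ∧ φ r := by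
  obtain ⟨D, hD⟩ := sep P φ
  obtain ⟨d, d1, d2⟩ := h.generic D (fun q hq => ((hD q).mp hq).1) (fun q hq => by
    obtain ⟨r, r1, r2⟩ := hd q hq
    exact ⟨r, (hD r).mpr ⟨r1.1, r2⟩, r1.2.2⟩)
  exact ⟨d, d2, ((hD d).mp d1).2⟩

omit hN in
lemma below (h : IsGenericExt j P R G) (hF : IsForcing P R one) {q₀ : M} (h0 : Mem (j q₀) G)
    (φ : M → Prop) [hφ : D1 φ] (hd : ∀ q, Le P R q q₀ → ∃ r, Le P R r q ∧ φ r) :
    ∃ r, Mem (j r) G ∧ φ r := by
  have := @hφ.sub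
  obtain ⟨r, r1, r2⟩ := h.dense (fun r => φ r ∨ ¬∃ t : M, Le P R t r ∧ Le P R t q₀) (by
    intro q hq
    by_cases hc : ∃ t : M, Le P R t q ∧ Le P R t q₀
    · obtain ⟨t, t1, t2⟩ := hc
      obtain ⟨r, r1, r2⟩ := hd t t2
      exact ⟨r, hF.le_trans r1 t1, Or.inl r2⟩
    · exact ⟨q, hF.le_refl hq, Or.inr hc⟩)
  rcases r2 with r2 | r2
  · exact ⟨r, r1, r2⟩
  · obtain ⟨t, -, t1, t2⟩ := h.meet r1 h0
    exact absurd ⟨t, t1, t2⟩ r2

omit hN in
/-- a generic condition decides whether a definable open set is met below it -/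
lemma decide (h : IsGenericExt j P R G) (hF : IsForcing P R one) (φ : M → Prop) [hφ : D1 φ]
    (hn : ∀ p, Mem (j p) G → ¬φ p) : ∃ p, Mem (j p) G ∧ ∀ q, Le P R q p → ¬φ q := by
  have := @hφ.sub
  obtain ⟨r, r1, r2⟩ := h.dense (fun r => φ r ∨ ∀ q : M, Le P R q r → ¬φ q) (by
    intro q hq
    by_cases hc : ∃ t : M, Le P R t q ∧ φ t
    · obtain ⟨t, t1, t2⟩ := hc
      exact ⟨t, t1, Or.inl t2⟩
    · exact ⟨q, hF.le_refl hq, Or.inr fun t t1 t2 => hc ⟨t, t1, t2⟩⟩)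
  exact ⟨r, r1, r2.resolve_left (hn r r1)⟩

/-- the truth lemma -/
lemma truth (h : IsGenericExt j P R G) (hF : IsForcing P R one) {T A F : M}
    (hT : ∀ x y, Mem x T → Mem y x → Mem y T) (hA : ∀ x y, Mem x A → Mem y x → Mem y A)
    (hFs : ∀ p σ a, Mem (pr p (pr σ a)) F ↔ Mem p P ∧ Mem σ T ∧ Mem a A ∧ Clause P R F p σ a)
    {v : N} (v2 : ∀ σ z π p, Mem (pr σ z) v → Mem (pr π p) σ → ∃ t, Mem (pr π t) v)
    (v3 : ∀ σ z, Mem (pr σ z) v → ∀ t, Mem t z ↔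
      ∃ π p, Mem (pr π p) σ ∧ Mem p G ∧ Mem (pr π t) v) :
    ∀ a σ z, Mem a A → Mem σ T → Mem (pr (j σ) z) v →
      (z = j a ↔ ∃ p, Mem (j p) G ∧ Mem (pr p (pr σ a)) F) := by
  have conv : ∀ a σ, (∃ p', Mem p' G ∧ Mem (pr p' (pr (j σ) (j a))) (j F)) ↔
      ∃ p, Mem (j p) G ∧ Mem (pr p (pr σ a)) F := by
    intro a σ
    constructor
    · rintro ⟨p', h1, h2⟩
      obtain ⟨p, rfl⟩ := h.transitive _ _ (h.sub _ h1)
      exact ⟨p, h1, by rwa [← h.j_pr, ← h.j_pr, j_mem] at h2⟩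
    · rintro ⟨p, h1, h2⟩
      exact ⟨j p, h1, by rwa [← h.j_pr, ← h.j_pr, j_mem]⟩
  have subT : ∀ σ π s, Mem σ T → Mem (pr π s) σ → Mem π T := fun σ π s h1 h2 =>
    hT _ _ (hT _ _ (hT _ _ h1 h2) (mem_upair.mpr (Or.inr rfl))) (mem_upair.mpr (Or.inl rfl))
  have mono : ∀ p q σ a, Mem (pr p (pr σ a)) F → Le P R q p → Mem (pr q (pr σ a)) F := by
    intro p q σ a h1 h2
    obtain ⟨-, a2, a3, a4, a5⟩ := (hFs _ _ _).mp h1
    exact (hFs _ _ _).mpr ⟨h2.1, a2, a3, fun π s r b1 b2 b3 => a4 π s r b1 (hF.le_trans b2 h2) b3,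
      fun b r b1 b2 => a5 b r b1 (hF.le_trans b2 h2)⟩
  have main := mem_ind (j A) (fun a' => ∀ σ' z : N, Mem σ' (j T) → Mem (pr σ' z) v →
    (z = a' ↔ ∃ p' : N, Mem p' G ∧ Mem (pr p' (pr σ' a')) (j F))) (by
      intro a' ha' ih σ' z hσ' hz
      obtain ⟨a, rfl⟩ := h.transitive _ _ ha'
      obtain ⟨σ, rfl⟩ := h.transitive _ _ hσ'
      rw [j_mem] at ha' hσ'
      have IH : ∀ b π t, Mem b a → Mem π T → Mem (pr (j π) t) v →
          (t = j b ↔ ∃ p, Mem (j p) G ∧ Mem (pr p (pr π b)) F) := by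
        intro b π t h1 h2 h3
        rw [← conv]
        exact ih (j b) ((j_mem j).mpr h1) ((j_mem j).mpr (hA _ _ ha' h1)) (j π) t
          ((j_mem j).mpr h2) h3
      have memz : ∀ t, Mem t z ↔
          ∃ π s, Mem (pr π s) σ ∧ Mem (j s) G ∧ Mem (pr (j π) t) v := by
        intro t
        rw [v3 _ _ hz]
        constructor
        · rintro ⟨π, s, h1, h2, h3⟩
          obtain ⟨π₀, s₀, rfl, rfl, h4⟩ := h.pr_mem h1
          exact ⟨π₀, s₀, h4, h2, h3⟩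
        · rintro ⟨π, s, h1, h2, h3⟩
          exact ⟨j π, j s, by rwa [← h.j_pr, j_mem], h2, h3⟩
      have dom : ∀ π s, Mem (pr π s) σ → ∃ t, Mem (pr (j π) t) v := fun π s h1 =>
        v2 _ _ (j π) (j s) hz (by rwa [← h.j_pr, j_mem])
      rw [conv]
      constructor
      · rintro rfl
        obtain ⟨p₁, p1, p2⟩ := h.decide hF (fun q => ∃ π s : M, Mem (pr π s) σ ∧ Le P R q s ∧
            ∀ r b : M, Le P R r q → Mem b a → ¬Mem (pr r (pr π b)) F) (by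
          rintro q hq ⟨π, s, a1, a2, a3⟩
          obtain ⟨t, ht⟩ := dom π s a1
          have h1 : Mem t (j a) := (memz t).mpr ⟨π, s, a1, h.up' hq a2, ht⟩
          obtain ⟨b, rfl⟩ := h.transitive _ _ h1
          rw [j_mem] at h1
          obtain ⟨r₀, r1, r2⟩ := (IH b π _ h1 (subT _ _ _ hσ' a1) ht).mp rfl
          obtain ⟨r, -, r3, r4⟩ := h.meet r1 hq
          exact a3 r b r4 h1 (mono _ _ _ _ r2 r3))
        obtain ⟨p₂, p3, p4⟩ := h.decide hF (fun q => ∃ b : M, Mem b a ∧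
            ∀ r π s : M, Le P R r q → Mem (pr π s) σ → Le P R r s → ¬Mem (pr r (pr π b)) F) (by
          rintro q hq ⟨b, a1, a2⟩
          obtain ⟨π, s, b1, b2, b3⟩ := (memz (j b)).mp ((j_mem j).mpr a1)
          obtain ⟨r₀, r1, r2⟩ := (IH b π _ a1 (subT _ _ _ hσ' b1) b3).mp rfl
          obtain ⟨r, r3, r4, r5⟩ := h.meet r1 hq
          obtain ⟨r', -, r6, r7⟩ := h.meet r3 b2
          exact a2 r' π s (hF.le_trans r6 r5) b1 r7 (mono _ _ _ _ r2 (hF.le_trans r6 r4)))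
        obtain ⟨p, q1, q2, q3⟩ := h.meet p1 p3
        refine ⟨p, q1, (hFs _ _ _).mpr ⟨q2.1, hσ', ha', fun π s q a1 a2 a3 => ?_,
          fun b q a1 a2 => ?_⟩⟩
        · by_contra hc
          exact p2 q (hF.le_trans a2 q2) ⟨π, s, a1, a3, fun r b b1 b2 b3 => hc ⟨r, b, b1, b2, b3⟩⟩
        · by_contra hc
          exact p4 q (hF.le_trans a2 q3)
            ⟨b, a1, fun r π s b1 b2 b3 b4 => hc ⟨r, π, s, b1, b2, b3, b4⟩⟩
      · rintro ⟨p, p1, p2⟩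
        obtain ⟨-, -, -, c1, c2⟩ := (hFs _ _ _).mp p2
        apply ext
        intro t
        constructor
        · intro ht
          obtain ⟨π, s, a1, a2, a3⟩ := (memz t).mp ht
          obtain ⟨q₀, q1, q2, q3⟩ := h.meet p1 a2
          obtain ⟨r, r1, b, r2, r3⟩ := h.below hF q1
            (fun r => ∃ b : M, Mem b a ∧ Mem (pr r (pr π b)) F) (by
              intro q hq
              obtain ⟨r, b, b1, b2, b3⟩ := c1 π s q a1 (hF.le_trans hq q2) (hF.le_trans hq q3)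
              exact ⟨r, b1, b, b2, b3⟩)
          rw [(IH b π t r2 (subT _ _ _ hσ' a1) a3).mpr ⟨r, r1, r3⟩, j_mem]
          exact r2
        · intro ht
          obtain ⟨b, rfl⟩ := h.transitive _ _ ht
          rw [j_mem] at ht
          obtain ⟨r, r1, π, s, r2, r3, r4⟩ := h.below hF p1
            (fun r => ∃ π s : M, Mem (pr π s) σ ∧ Le P R r s ∧ Mem (pr r (pr π b)) F) (by
              intro q hq
              obtain ⟨r, π, s, b1, b2, b3, b4⟩ := c2 b q ht hq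
              exact ⟨r, b1, π, s, b2, b3, b4⟩)
          obtain ⟨t, ht'⟩ := dom π s r2
          obtain rfl := (IH b π t ht (subT _ _ _ hσ' r2) ht').mpr ⟨r, r1, r4⟩
          exact (memz _).mpr ⟨π, s, r2, h.up' r1 r3, ht'⟩)
  intro a σ z ha hσ hz
  rw [← conv]
  exact main (j a) ((j_mem j).mpr ha) (j σ) z ((j_mem j).mpr hσ) hz

/-- membership of ground model sets in a set of the extension is decided by a ground model
relation -/
lemma exists_rel (h : IsGenericExt j P R G) (hF : IsForcing P R one) (y : N) (A₀ : M) :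
    ∃ S : M, (∀ p a, Mem (pr p a) S → Mem p P) ∧
      (∀ p q a, Mem (pr p a) S → Le P R q p → Mem (pr q a) S) ∧
      ∀ a, Mem a A₀ → (Mem (j a) y ↔ ∃ p, Mem (j p) G ∧ Mem (pr p a) S) := by
  obtain ⟨τ, v, v0, -, v2, v3⟩ := h.val y
  simp only [rel_iff] at v0 v2 v3
  obtain ⟨T, hτ, hT⟩ := exists_trans τ
  obtain ⟨A, hA₀, hA⟩ := exists_trans A₀
  obtain ⟨F, hFs⟩ := exists_forcing P R T A
  have tr := h.truth hF hT hA hFs v2 v3
  have subT : ∀ π s, Mem (pr π s) τ → Mem π T := fun π s h2 =>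
    hT _ _ (hT _ _ (hT _ _ hτ h2) (mem_upair.mpr (Or.inr rfl))) (mem_upair.mpr (Or.inl rfl))
  obtain ⟨S, hS⟩ := sep2 P A₀ (fun p a => ∃ σ s r : M,
    Mem (pr σ s) τ ∧ Le P R p s ∧ Le P R p r ∧ Mem (pr r (pr σ a)) F)
  refine ⟨S, fun p a hp => ((hS _ _).mp hp).1, fun p q a hp hq => ?_, fun a ha => ?_⟩
  · obtain ⟨-, a2, σ, s, r, a3, a4, a5, a6⟩ := (hS _ _).mp hp
    exact (hS _ _).mpr ⟨hq.1, a2, σ, s, r, a3, hF.le_trans hq a4, hF.le_trans hq a5, a6⟩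
  · rw [v3 _ _ v0]
    constructor
    · rintro ⟨π, s, h1, h2, h3⟩
      obtain ⟨π₀, s₀, rfl, rfl, h4⟩ := h.pr_mem h1
      obtain ⟨r, r1, r2⟩ := (tr a π₀ _ (hA _ _ hA₀ ha) (subT _ _ h4) h3).mp rfl
      obtain ⟨p, p1, p2, p3⟩ := h.meet h2 r1
      exact ⟨p, p1, (hS _ _).mpr ⟨p2.1, ha, π₀, s₀, r, h4, p2, p3, r2⟩⟩
    · rintro ⟨p, p1, p2⟩
      obtain ⟨-, -, σ, s, r, a3, a4, a5, a6⟩ := (hS _ _).mp p2
      have a7 : Mem (pr (j σ) (j s)) (j τ) := by rwa [← h.j_pr, j_mem]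
      obtain ⟨t, ht⟩ := v2 _ _ _ _ v0 a7
      obtain rfl := (tr a σ t (hA _ _ hA₀ ha) (subT _ _ a3) ht).mpr ⟨r, h.up' p1 a5, a6⟩
      exact ⟨j σ, j s, a7, h.up' p1 a4, ht⟩

/-- Main theorem: a set of ordinals which is uncountable in the ground model stays uncountable. -/
theorem not_ctbl (h : IsGenericExt j P R G) (hF : IsForcing P R one) (hc : CCC3 P R) {w : M}
    (hl : Lin w) (hw : ¬Ctbl w) : ¬Ctbl (j w) := by
  intro hcw
  obtain ⟨f, f1, f2⟩ := hcw.inj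
  obtain ⟨S₀, s1, s2, s3⟩ := h.exists_rel hF f (prod w (om M))
  have s4 : ∀ a n, Mem a w → Mem n (om M) →
      (Mem (pr (j a) (j n)) f ↔ ∃ p, Mem (j p) G ∧ Mem (pr p (pr a n)) S₀) := by
    intro a n ha hn
    rw [← h.j_pr]
    exact s3 _ (pr_mem_prod.mpr ⟨ha, hn⟩)
  obtain ⟨p₁, p1, p2⟩ := h.decide hF (fun q => ∃ n a b : M, Mem n (om M) ∧ Mem a w ∧ Mem b w ∧
      ¬a = b ∧ Mem (pr q (pr a n)) S₀ ∧ Mem (pr q (pr b n)) S₀) (by
    rintro q hq ⟨n, a, b, h1, h2, h3, h4, h5, h6⟩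
    exact h4 (j.injective (f2 _ _ _ ((s4 a n h2 h1).mpr ⟨q, hq, h5⟩)
      ((s4 b n h3 h1).mpr ⟨q, hq, h6⟩))))
  obtain ⟨p₂, p3, p4⟩ := h.decide hF (fun q => ∃ a : M, Mem a w ∧
      ∀ r n : M, Le P R r q → Mem n (om M) → ¬Mem (pr r (pr a n)) S₀) (by
    rintro q hq ⟨a, h1, h2⟩
    obtain ⟨n', n1, n2⟩ := f1 (j a) ((j_mem j).mpr h1)
    obtain ⟨n, rfl⟩ := h.transitive _ _ (h.om_sub _ n1)
    have hn := (j_mem j).mp (h.om_sub _ n1)
    obtain ⟨r₀, r1, r2⟩ := (s4 a n h1 hn).mp n2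
    obtain ⟨r, -, r3, r4⟩ := h.meet r1 hq
    exact h2 r n r4 hn (s2 _ _ _ r2 r3))
  obtain ⟨p₀, -, q2, q3⟩ := h.meet p1 p3
  obtain ⟨S, hS⟩ := sep3 P (om M) w (fun q n a => Le P R q p₀ ∧ Mem (pr q (pr a n)) S₀)
  refine Codes.false (P := P) (R := R) (p₀ := p₀) (w := w) (S := S)
    ⟨q2.1, ?_, ?_, ?_, ?_⟩ hF hc hl hw
  · intro q n a hq
    obtain ⟨-, a2, a3, a4, -⟩ := (hS _ _ _).mp hq
    exact ⟨a4, a2, a3⟩
  · intro q r n a hq hr
    obtain ⟨-, a2, a3, a4, a5⟩ := (hS _ _ _).mp hq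
    exact (hS _ _ _).mpr ⟨hr.1, a2, a3, hF.le_trans hr a4, s2 _ _ _ a5 hr⟩
  · intro q n a b ha hb
    obtain ⟨-, a2, a3, a4, a5⟩ := (hS _ _ _).mp ha
    obtain ⟨-, -, b3, -, b5⟩ := (hS _ _ _).mp hb
    by_contra hab
    exact p2 q (hF.le_trans a4 q2) ⟨n, a, b, a2, a3, b3, hab, a5, b5⟩
  · intro a q ha hq
    by_contra hc'
    refine p4 q (hF.le_trans hq q3) ⟨a, ha, fun r n r1 r2 r3 => hc' ⟨r, n, r1, ?_⟩⟩
    exact (hS _ _ _).mpr ⟨r1.1, r2, ha, hF.le_trans r1 hq, r3⟩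

end IsGenericExt

end Pool.Agent.P.MP_6e04fb_lc
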