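import Pool.Agent.P.MP_6e04fb_lc.Defs

/-!
Finite sets, countable unions of finite sets and ordinals inside a model of set theory.
-/

open FirstOrder

namespace Pool.Agent.P.MP_6e04fb_lc

variable {M : Type*} [Language.graph.Structure M]

/-- `x` is finite: some injective function `f` maps `x` into a natural number `n`, an element of
the least inductive set. -/
def IsFin (x : M) : Prop :=
  ∃ w n f : M, (Inductive w ∧ ∀ v, Inductive v → Sub w v) ∧ Mem n w ∧
    (∀ a, Mem a x → ∃ m, Mem m n ∧ Rel f a m) ∧
    (∀ a m k, Rel f a m → Rel f a k → m = k) ∧ (∀ a b m, Rel f a m → Rel f b m → a = b)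

/-- `X` is the union of a countable family of finite sets. -/
def CtblUnionFin (X : M) : Prop :=
  ∃ F : M, Ctbl F ∧ (∀ A, Mem A F → IsFin A) ∧ ∀ x, Mem x X ↔ ∃ A, Mem A F ∧ Mem x A

/-- `w` is an ordinal: transitive and linearly ordered by membership. -/
def IsOrd (w : M) : Prop :=
  (∀ a, Mem a w → Sub a w) ∧ ∀ a b, Mem a w → Mem b w → Mem a b ∨ a = b ∨ Mem b a

end Pool.Agent.P.MP_6e04fb_lc
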