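import Pool.Agent.P.MP_6e04fb_lc.Forcing
import Pool.Agent.P.MP_6e04fb_lc.UDefs

/-!
A bounding argument: if a forcing with the strong chain condition makes a set countable below a
condition, and some name for a natural number has infinitely many values below that condition,
then the set is countable in the ground model.
-/

open FirstOrder

set_option synthInstance.maxSize 100000

namespace Pool.Agent.P.MP_6e04fb_lc

variable {M : Type*} [Language.graph.Structure M] [hZ : Fact (IsZF M)]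
variable {α : Type} {s t u v : (α → M) → M}

omit hZ in
lemma Ctbl.mono {x y : M} (h : Ctbl y) (hs : Sub x y) : Ctbl x := by
  obtain ⟨w, f, hw, h1, h2, h3⟩ := h
  exact ⟨w, f, hw, fun a ha => h1 a (hs a ha), h2, h3⟩

lemma Ctbl.inj' {x : M} (h : Ctbl x) :
    ∃ f : M, (∀ a, Mem a x → ∃ n, Mem n (om M) ∧ Mem (pr a n) f) ∧
      (∀ a n m, Mem (pr a n) f → Mem (pr a m) f → n = m) ∧
      ∀ a b n, Mem (pr a n) f → Mem (pr b n) f → a = b := by
  obtain ⟨w, f, hw, h1, h2, h3⟩ := h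
  obtain rfl := om_unique hw
  simp only [rel_iff] at h1 h2 h3
  exact ⟨f, h1, h2, h3⟩

lemma fin_of (x l : M) (hl : Mem l (om M)) (φ : M → M → Prop) [hφ : D2 φ]
    (func : ∀ n a b, φ n a → φ n b → a = b)
    (cover : ∀ a, Mem a x → ∃ n, Mem n l ∧ φ n a) : IsFin x := by
  have := @hφ.sub
  obtain ⟨f, hf⟩ := sep2 x l (fun a n => φ n a ∧ ∀ m : M, Mem m n → ¬φ m a)
  refine ⟨om M, l, f, om_spec, hl, fun a ha => ?_, fun a n m h1 h2 => ?_, fun a b n h1 h2 => ?_⟩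
  · obtain ⟨n₀, n1, n2⟩ := cover a ha
    obtain ⟨n, h1, h2, h3⟩ := nat_min (fun n => φ n a) ⟨n₀, om_trans hl n1, n2⟩
    have hn : Mem n l := by
      rcases nat_tri h1 (om_trans hl n1) with e | e | e
      · exact nat_trans hl n1 e
      · exact e ▸ n1
      · exact absurd n2 (h3 _ e)
    exact ⟨n, hn, rel_iff.mpr ((hf _ _).mpr ⟨ha, hn, h2, h3⟩)⟩
  · rw [rel_iff, hf] at h1 h2
    exact nat_min_unique (φ := fun n => φ n a) (om_trans hl h1.2.1) (om_trans hl h2.2.1)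
      h1.2.2.1 h2.2.2.1 h1.2.2.2 h2.2.2.2
  · rw [rel_iff, hf] at h1 h2
    exact func n a b h1.2.2.1 h2.2.2.1

lemma cuf_of (X : M) (ψ : M → M → Prop) [hψ : D2 ψ]
    (cover : ∀ x, Mem x X → ∃ n, Mem n (om M) ∧ ψ n x)
    (fin : ∀ n A, Mem n (om M) → (∀ x, Mem x A ↔ Mem x X ∧ ψ n x) → IsFin A) :
    CtblUnionFin X := by
  have := @hψ.sub
  obtain ⟨F, hF⟩ := sep (pw X)
    (fun A => ∃ n : M, Mem n (om M) ∧ ∀ x : M, Mem x A ↔ Mem x X ∧ ψ n x)
  refine ⟨F, ?_, fun A hA => ?_, fun x => ⟨fun hx => ?_, ?_⟩⟩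
  · refine ctbl_of F (fun n A => ∀ x : M, Mem x A ↔ Mem x X ∧ ψ n x) ?_ ?_
    · intro n A B h1 h2
      exact ext fun x => by rw [h1, h2]
    · intro A hA
      exact ((hF A).mp hA).2
  · obtain ⟨-, n, h1, h2⟩ := (hF A).mp hA
    exact fin n A h1 h2
  · obtain ⟨n, h1, h2⟩ := cover x hx
    obtain ⟨A, hA⟩ := sep X (fun x => ψ n x)
    exact ⟨A, (hF A).mpr ⟨mem_pw.mpr fun y hy => ((hA y).mp hy).1, n, h1, hA⟩,
      (hA x).mpr ⟨hx, h2⟩⟩
  · rintro ⟨A, h1, h2⟩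
    exact mem_pw.mp ((hF A).mp h1).1 x h2

lemma Ctbl.cuf {X : M} (h : Ctbl X) : CtblUnionFin X := by
  obtain ⟨g, g1, g2⟩ := h.inj
  refine cuf_of X (fun n x => Mem (pr x n) g) g1 (fun n A _ hA => ?_)
  refine fin_of A (suc (emp M)) (suc_mem_om emp_mem_om) (fun _ x => Mem (pr x n) g)
    (fun _ a b h1 h2 => g2 _ _ _ h1 h2) (fun a ha => ?_)
  exact ⟨emp M, mem_suc.mpr (Or.inr rfl), ((hA a).mp ha).2⟩

lemma nat_ub {m n : M} (hm : Mem m (om M)) (hn : Mem n (om M)) :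
    ∃ l, Mem l (om M) ∧ Mem m l ∧ Mem n l := by
  rcases nat_tri hm hn with e | e | e
  · exact ⟨suc n, suc_mem_om hn, mem_suc.mpr (Or.inl e), mem_suc.mpr (Or.inr rfl)⟩
  · exact ⟨suc n, suc_mem_om hn, mem_suc.mpr (Or.inr e), mem_suc.mpr (Or.inr rfl)⟩
  · exact ⟨suc m, suc_mem_om hm, mem_suc.mpr (Or.inr rfl), mem_suc.mpr (Or.inl e)⟩

/-- `B` codes a name for a natural number with infinitely many values below `p₀`; equivalently
infinitely many pairwise disjoint nonempty open sets, indexed by natural numbers. -/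
structure NatName (P R p₀ B : M) : Prop where
  bd : ∀ k q, Mem (pr k q) B → Mem k (om M) ∧ Le P R q p₀
  mono : ∀ k q r, Mem (pr k q) B → Le P R r q → Mem (pr k r) B
  func : ∀ k l q, Mem (pr k q) B → Mem (pr l q) B → k = l
  unb : ∀ i, Mem i (om M) → ∃ k q, Mem i k ∧ Mem (pr k q) B

/-- `x` is a possible value at some `n < m` inside the `k`-th open set -/
def Ab (B S k m x : M) : Prop :=
  ∃ n q : M, Mem n m ∧ Mem (pr k q) B ∧ Mem (pr q (pr n x)) S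

instance Df.ab {B S : M} [Tm s] [Tm t] [Tm u] : Df (fun w => Ab B S (s w) (t w) (u w)) := by
  unfold Ab; infer_instance

/-- eventual domination of first appearance times -/
def Dom (B S x y : M) : Prop :=
  ∃ i : M, Mem i (om M) ∧ ∀ k m : M, Mem i k → Mem m (om M) → Ab B S k m y → Ab B S k m x

instance Df.dom {B S : M} [Tm s] [Tm t] : Df (fun w => Dom B S (s w) (t w)) := by
  unfold Dom; infer_instance

variable {P R p₀ X S B one : M}

lemma Ab.mono {k m m' x : M} (h : Ab B S k m x) (hm' : Mem m' (om M)) (hm : Mem m m') :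
    Ab B S k m' x :=
  let ⟨n, q, h1, h2, h3⟩ := h
  ⟨n, q, nat_trans hm' hm h1, h2, h3⟩

/-- mixing along the open sets -/
lemma Codes.mix (h : Codes P R p₀ X S) (hF : IsForcing P R one) (hc : CCC3 P R)
    (hB : NatName P R p₀ B) (Ψ : M → M → Prop) [hΨ : D2 Ψ]
    (dense : ∀ k q, Mem (pr k q) B → ∃ r, Le P R r q ∧ Ψ k r) :
    ∃ W, Ctbl W ∧ ∀ k q, Mem (pr k q) B → ∃ d r, Ψ k d ∧ Le P R r q ∧ Le P R r d ∧
      ∀ n x, Mem (pr d (pr n x)) S → Mem x W := by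
  have := @hΨ.sub
  obtain ⟨D, hD⟩ := sep P (fun q => (∃ k : M, Mem (pr k q) B ∧ Ψ k q) ∨
    ∀ r k : M, Le P R r q → ¬Mem (pr k r) B)
  have pre : Predense P R D := by
    refine ⟨fun q hq => ((hD q).mp hq).1, fun p hp => ?_⟩
    by_cases e : ∃ r k : M, Le P R r p ∧ Mem (pr k r) B
    · obtain ⟨r, k, h1, h2⟩ := e
      obtain ⟨t, t1, t2⟩ := dense k r h2
      exact ⟨t, (hD t).mpr ⟨t1.1, Or.inl ⟨k, hB.mono _ _ _ h2 t1, t2⟩⟩, t, t1.1,
        (hF.le_trans t1 h1).2.2, hF.refl t t1.1⟩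
    · push Not at e
      exact ⟨p, (hD p).mpr ⟨hp, Or.inr e⟩, p, hp, hF.refl p hp, hF.refl p hp⟩
  obtain ⟨D₀, h1, h2, h3⟩ := hc D pre
  obtain ⟨f, f1, f2⟩ := h2.inj
  obtain ⟨W, hW⟩ := sep X (fun x => ∃ d n : M, Mem d D₀ ∧ Mem (pr d (pr n x)) S)
  refine ⟨W, ?_, fun k q hq => ?_⟩
  · refine ctbl_of2 W (fun i n x => ∃ d : M, Mem (pr d i) f ∧ Mem (pr d (pr n x)) S) ?_ ?_
    · rintro i n a b ⟨d, a1, a2⟩ ⟨e, b1, b2⟩
      obtain rfl := f2 _ _ _ a1 b1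
      exact h.func _ _ _ _ a2 b2
    · intro x hx
      obtain ⟨-, d, n, a1, a2⟩ := (hW x).mp hx
      obtain ⟨i, i1, i2⟩ := f1 d a1
      exact ⟨i, n, i1, (h.bound _ _ _ a2).2.1, d, i2, a2⟩
  · have hqP := (hB.bd _ _ hq).2.1
    obtain ⟨d, hd, r, hr, r1, r2⟩ := h3.2 q hqP
    obtain ⟨hdP, hd'⟩ := (hD d).mp (h1 d hd)
    have r3 : Mem (pr k r) B := hB.mono _ _ _ hq ⟨hr, hqP, r1⟩
    rcases hd' with ⟨l, l1, l2⟩ | hd'
    · obtain rfl := hB.func _ _ _ r3 (hB.mono _ _ _ l1 ⟨hr, hdP, r2⟩)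
      exact ⟨d, r, l2, ⟨hr, hqP, r1⟩, ⟨hr, hdP, r2⟩, fun n x hx =>
        (hW x).mpr ⟨(h.bound _ _ _ hx).2.2, d, n, hd, hx⟩⟩
    · exact absurd r3 (hd' r k ⟨hr, hdP, r2⟩)

/-- finitely many values can be decided at once -/
lemma Codes.decide_fin (h : Codes P R p₀ X S) (hF : IsForcing P R one) {m : M}
    (hm : Mem m (om M)) : ∀ q, Mem q P → ∃ r, Le P R r q ∧ ∀ n, Mem n m →
      (∃ x, Mem (pr r (pr n x)) S) ∨ ∀ t x, Le P R t r → ¬Mem (pr t (pr n x)) S := by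
  refine om_ind (fun m => ∀ q : M, Mem q P → ∃ r : M, Le P R r q ∧ ∀ n : M, Mem n m →
      (∃ x : M, Mem (pr r (pr n x)) S) ∨ ∀ t x : M, Le P R t r → ¬Mem (pr t (pr n x)) S)
    ?_ ?_ m hm
  · intro q hq
    exact ⟨q, hF.le_refl hq, fun n hn => (not_mem_emp n hn).elim⟩
  · intro m _ ih q hq
    obtain ⟨r, r1, r2⟩ := ih q hq
    by_cases e : ∃ t x : M, Le P R t r ∧ Mem (pr t (pr m x)) S
    · obtain ⟨t, x, t1, t2⟩ := e
      refine ⟨t, hF.le_trans t1 r1, fun n hn => ?_⟩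
      rcases mem_suc.mp hn with hn | rfl
      · rcases r2 n hn with ⟨y, hy⟩ | hy
        · exact Or.inl ⟨y, h.mono _ _ _ _ hy t1⟩
        · exact Or.inr fun t' y ht' => hy t' y (hF.le_trans ht' t1)
      · exact Or.inl ⟨x, t2⟩
    · push Not at e
      refine ⟨r, r1, fun n hn => ?_⟩
      rcases mem_suc.mp hn with hn | rfl
      · exact r2 n hn
      · exact Or.inr e

/-- the points appearing somewhere before a given bound form a countable set -/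
lemma Codes.ctbl_below (h : Codes P R p₀ X S) (hF : IsForcing P R one) (hc : CCC3 P R)
    (hB : NatName P R p₀ B) (H : M → M → Prop) [hH : D2 H]
    (tot : ∀ k q, Mem (pr k q) B → ∃ m, Mem m (om M) ∧ H k m)
    (func : ∀ k m m', H k m → H k m' → m = m') :
    ∃ W, Ctbl W ∧ ∀ k m x, H k m → Ab B S k m x → Mem x W := by
  have := @hH.sub
  obtain ⟨W, W1, W2⟩ := h.mix hF hc hB (fun k d => ∃ m : M, H k m ∧ ∀ n : M, Mem n m →
      (∃ x : M, Mem (pr d (pr n x)) S) ∨ ∀ t x : M, Le P R t d → ¬Mem (pr t (pr n x)) S) (by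
    intro k q hq
    obtain ⟨m, m1, m2⟩ := tot k q hq
    obtain ⟨r, r1, r2⟩ := h.decide_fin hF m1 q (hB.bd _ _ hq).2.1
    exact ⟨r, r1, m, m2, r2⟩)
  refine ⟨W, W1, ?_⟩
  rintro k m x hm ⟨n, q, a1, a2, a3⟩
  obtain ⟨d, r, ⟨m', b1, b2⟩, b3, b4, b5⟩ := W2 k q a2
  obtain rfl := func _ _ _ hm b1
  have hr := h.mono _ _ _ _ a3 b3
  rcases b2 n a1 with ⟨y, hy⟩ | hy
  · obtain rfl := h.func _ _ _ _ hr (h.mono _ _ _ _ hy b4)
    exact b5 _ _ hy
  · exact absurd hr (hy r x b4)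

lemma Codes.ab_ex (h : Codes P R p₀ X S) (hB : NatName P R p₀ B) {k q x : M}
    (hq : Mem (pr k q) B) (hx : Mem x X) :
    ∃ n, Mem n (om M) ∧ ∀ m, Mem n m → Ab B S k m x := by
  obtain ⟨r, n, r1, r2⟩ := h.onto x q hx (hB.bd _ _ hq).2
  exact ⟨n, (h.bound _ _ _ r2).2.1, fun m hm => ⟨n, r, hm, hB.mono _ _ _ hq r1, r2⟩⟩

/-- bounding a countable set -/
lemma Codes.bound_ctbl (h : Codes P R p₀ X S) (hF : IsForcing P R one) (hc : CCC3 P R)
    (hB : NatName P R p₀ B) {C : M} (hC : Ctbl C) (hCX : Sub C X) :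
    ∃ W, Ctbl W ∧ (∀ x y, Mem y C → Dom B S x y → Mem x W) ∧
      ∀ x y, Mem x C → ¬Mem y W → Dom B S x y := by
  obtain ⟨g, g1, g2⟩ := hC.inj
  let Good : M → M → M → Prop := fun l k m =>
    ∀ x i : M, Mem x C → Mem i l → Mem (pr x i) g → Ab B S k m x
  have hGood : D3 Good := by unfold Good; infer_instance
  have := @hGood.sub
  have ex : ∀ k q, Mem (pr k q) B → ∀ l, Mem l (om M) → ∃ m, Mem m (om M) ∧ Good l k m := by
    intro k q hq
    refine om_ind (fun l => ∃ m : M, Mem m (om M) ∧ Good l k m) ?_ ?_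
    · exact ⟨emp M, emp_mem_om, fun x i _ hi => (not_mem_emp i hi).elim⟩
    · rintro l - ⟨m, m1, m2⟩
      by_cases e : ∃ x : M, Mem x C ∧ Mem (pr x l) g
      · obtain ⟨x, x1, x2⟩ := e
        obtain ⟨n, n1, n2⟩ := h.ab_ex hB hq (hCX x x1)
        obtain ⟨m', a1, a2, a3⟩ := nat_ub m1 n1
        refine ⟨m', a1, fun y i y1 y2 y3 => ?_⟩
        rcases mem_suc.mp y2 with y2 | rfl
        · exact (m2 y i y1 y2 y3).mono a1 a2
        · obtain rfl := g2 _ _ _ y3 x2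
          exact n2 m' a3
      · refine ⟨m, m1, fun y i y1 y2 y3 => ?_⟩
        rcases mem_suc.mp y2 with y2 | rfl
        · exact m2 y i y1 y2 y3
        · exact absurd ⟨y, y1, y3⟩ e
  let H : M → M → Prop := fun k m =>
    Mem m (om M) ∧ Good k k m ∧ ∀ m' : M, Mem m' m → ¬Good k k m'
  have hH : D2 H := by unfold H; infer_instance
  have tot : ∀ k q, Mem (pr k q) B → ∃ m, Mem m (om M) ∧ H k m := by
    intro k q hq
    obtain ⟨m, m1, m2, m3⟩ := nat_min (fun m => Good k k m) (ex k q hq k (hB.bd _ _ hq).1)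
    exact ⟨m, m1, m1, m2, m3⟩
  obtain ⟨W, W1, W2⟩ := h.ctbl_below hF hc hB H tot (fun k m m' a b =>
    nat_min_unique (φ := fun m => Good k k m) a.1 b.1 a.2.1 b.2.1 a.2.2 b.2.2)
  refine ⟨W, W1, ?_, ?_⟩
  · rintro x y hy ⟨i, i1, i2⟩
    obtain ⟨l, l1, l2⟩ := g1 y hy
    obtain ⟨b, b1, b2, b3⟩ := nat_ub i1 l1
    obtain ⟨k, q, k1, k2⟩ := hB.unb b b1
    have hk := (hB.bd _ _ k2).1
    obtain ⟨m, m1, m2⟩ := tot k q k2
    exact W2 k m x m2 (i2 k m (nat_trans hk k1 b2) m1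
      (m2.2.1 y l hy (nat_trans hk k1 b3) l2))
  · intro x y hx hy
    obtain ⟨i, i1, i2⟩ := g1 x hx
    refine ⟨i, i1, fun k m k1 m1 ha => ?_⟩
    obtain ⟨-, q, -, hq, -⟩ := id ha
    obtain ⟨m₀, a1, a2⟩ := tot k q hq
    rcases nat_tri m1 a1 with e | e | e
    · exact absurd (W2 k m₀ y a2 (ha.mono a1 e)) hy
    · exact absurd (W2 k m₀ y a2 (e ▸ ha)) hy
    · exact (a2.2.1 x i hx k1 i2).mono m1 e

/-- The bounding theorem. -/
theorem Codes.ctbl_of_natName (h : Codes P R p₀ X S) (hF : IsForcing P R one) (hc : CCC3 P R)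
    (hB : NatName P R p₀ B) : Ctbl X := by
  by_contra hX
  obtain ⟨k₀, q₀, -, hq₀⟩ := hB.unb _ emp_mem_om
  have ne : ∀ n, Mem n (om M) →
      ∃ y, Mem y X ∧ ∀ x, Mem x X → Ab B S k₀ n x → Dom B S x y := by
    intro n hn
    obtain ⟨W₀, a1, a2⟩ := h.ctbl_below hF hc hB (fun _ m => m = n)
      (fun _ _ _ => ⟨n, hn, rfl⟩) (fun _ _ _ a b => a.trans b.symm)
    obtain ⟨C, hC⟩ := sep X (fun x => Ab B S k₀ n x)
    obtain ⟨W, W1, -, W3⟩ := h.bound_ctbl hF hc hB (C := C)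
      (a1.mono fun x hx => a2 k₀ n x rfl ((hC x).mp hx).2) (fun x hx => ((hC x).mp hx).1)
    by_contra hy
    push Not at hy
    refine hX (W1.mono fun y hyX => ?_)
    by_contra hyW
    obtain ⟨x, x1, x2, x3⟩ := hy y hyX
    exact x3 (W3 x y ((hC x).mpr ⟨x1, x2⟩) hyW)
  obtain ⟨W₁, a1, a2⟩ := h.mix hF hc hB (fun k d => ∃ n y : M, Mem (pr d (pr n y)) S ∧
      ∀ x : M, Mem x X → Ab B S k₀ k x → Dom B S x y) (by
    intro k q hq
    obtain ⟨y, y1, y2⟩ := ne k (hB.bd _ _ hq).1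
    obtain ⟨r, n, r1, r2⟩ := h.onto y q y1 (hB.bd _ _ hq).2
    exact ⟨r, r1, n, y, r2, y2⟩)
  obtain ⟨C, hC⟩ := sep X (fun x => Mem x W₁)
  obtain ⟨W, W1, W2, -⟩ := h.bound_ctbl hF hc hB (C := C)
    (a1.mono fun x hx => ((hC x).mp hx).2) (fun x hx => ((hC x).mp hx).1)
  refine hX (W1.mono fun x hx => ?_)
  obtain ⟨n, n1, n2⟩ := h.ab_ex hB hq₀ hx
  obtain ⟨k, q, k1, k2⟩ := hB.unb n n1
  obtain ⟨d, -, ⟨m, y, b1, b2⟩, -, -, b3⟩ := a2 k q k2
  exact W2 x y ((hC y).mpr ⟨(h.bound _ _ _ b1).2.2, b3 _ _ b1⟩) (b2 x hx (n2 k k1))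

/-- a set made countable is a countable union of finite sets -/
theorem Codes.cuf (h : Codes P R p₀ X S) (hF : IsForcing P R one) (hc : CCC3 P R) :
    CtblUnionFin X := by
  by_cases hX : Ctbl X
  · exact hX.cuf
  refine cuf_of X (fun n x => ∃ q : M, Mem (pr q (pr n x)) S) ?_ ?_
  · intro x hx
    obtain ⟨r, n, -, r2⟩ := h.onto x p₀ hx (hF.le_refl h.mem)
    exact ⟨n, (h.bound _ _ _ r2).2.1, r, r2⟩
  intro n A _ hA
  have cA : Ctbl A := by
    refine ctbl_values hF hc (fun q a => Mem (pr q (pr n a)) S)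
      (fun q r a h1 h2 => h.mono _ _ _ _ h1 h2) (fun q a b h1 h2 => h.func _ _ _ _ h1 h2) _ ?_
    intro a ha
    obtain ⟨-, q, hq⟩ := (hA a).mp ha
    exact ⟨q, (h.bound _ _ _ hq).1.1, hq⟩
  obtain ⟨g, g1, g2, g3⟩ := cA.inj'
  by_cases e : ∃ l : M, Mem l (om M) ∧ ∀ a, Mem a A → ∃ i, Mem i l ∧ Mem (pr a i) g
  · obtain ⟨l, l1, l2⟩ := e
    exact fin_of A l l1 (fun i a => Mem (pr a i) g) (fun i a b h1 h2 => g3 _ _ _ h1 h2) l2
  · exfalso
    push Not at e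
    obtain ⟨B, hB⟩ := sep2 (om M) P
      (fun k q => ∃ x : M, Mem (pr x k) g ∧ Mem (pr q (pr n x)) S)
    refine hX (h.ctbl_of_natName (B := B) hF hc ⟨?_, ?_, ?_, ?_⟩)
    · intro k q hq
      obtain ⟨a1, -, x, -, a2⟩ := (hB _ _).mp hq
      exact ⟨a1, (h.bound _ _ _ a2).1⟩
    · intro k q r hq hr
      obtain ⟨a1, -, x, a2, a3⟩ := (hB _ _).mp hq
      exact (hB _ _).mpr ⟨a1, hr.1, x, a2, h.mono _ _ _ _ a3 hr⟩
    · intro k l q h1 h2
      obtain ⟨-, -, x, a2, a3⟩ := (hB _ _).mp h1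
      obtain ⟨-, -, y, b2, b3⟩ := (hB _ _).mp h2
      obtain rfl := h.func _ _ _ _ a3 b3
      exact g2 _ _ _ a2 b2
    · intro i hi
      obtain ⟨x, x1, x2⟩ := e (suc i) (suc_mem_om hi)
      obtain ⟨k, k1, k2⟩ := g1 x x1
      obtain ⟨-, q, hq⟩ := (hA x).mp x1
      refine ⟨k, q, ?_, (hB _ _).mpr ⟨k1, (h.bound _ _ _ hq).1.1, x, k2, hq⟩⟩
      rcases nat_tri hi k1 with e' | e' | e'
      · exact e'
      · exact absurd k2 (x2 k (mem_suc.mpr (Or.inr e'.symm)))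
      · exact absurd k2 (x2 k (mem_suc.mpr (Or.inl e')))

end Pool.Agent.P.MP_6e04fb_lc
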