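import Pool.Agent.P.MP_6e04fb_lc.UCore

/-!
Sets made countable in a generic extension by a forcing with the strong chain condition.
-/

open FirstOrder

set_option synthInstance.maxSize 100000

namespace Pool.Agent.P.MP_6e04fb_lc

variable {M : Type*} [Language.graph.Structure M] [hM : Fact (IsZF M)]
variable {α : Type} {s t : (α → M) → M}

/-- both decisions about `a` occur inside `c` -/
def Spl (P R S c a : M) : Prop :=
  (∃ q : M, Mem q c ∧ Mem (pr q a) S) ∧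
    ∃ q : M, Mem q c ∧ ∀ r : M, Le P R r q → ¬Mem (pr r a) S

instance Df.spl {P R S : M} [Tm s] [Tm t] : Df (fun w => Spl P R S (s w) (t w)) := by
  unfold Spl; infer_instance

/-- `a` is the least point of `A` at which `c` splits -/
def SplMin (P R S A c a : M) : Prop :=
  Mem a A ∧ Spl P R S c a ∧ ∀ b : M, Mem b a → Mem b A → ¬Spl P R S c b

instance Df.splMin {P R S A : M} [Tm s] [Tm t] :
    Df (fun w => SplMin P R S A (s w) (t w)) := by
  unfold SplMin; infer_instance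

/-- a name for a new subset of a well-ordered set gives a name for a natural number with
infinitely many values -/
lemma natName_of_split {P R one S A p₀ : M} (hF : IsForcing P R one) (hl : Lin A)
    (hp : Mem p₀ P) (mono : ∀ p q a, Mem (pr p a) S → Le P R q p → Mem (pr q a) S)
    (spl : ∀ q, Le P R q p₀ → ∃ a, Mem a A ∧ (∃ r, Le P R r q ∧ Mem (pr r a) S) ∧
      ∃ r, Le P R r q ∧ ∀ t, Le P R t r → ¬Mem (pr t a) S) :
    ∃ B, NatName P R p₀ B := by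
  have ex : ∀ c, Op P R p₀ c → ∃ a, SplMin P R S A c a := by
    rintro c ⟨⟨q, hq⟩, h1, h2⟩
    obtain ⟨a, a1, ⟨r, r1, r2⟩, r', r3, r4⟩ := spl q (h1 q hq)
    exact exists_min A (fun a => Spl P R S c a)
      ⟨a, a1, ⟨r, h2 q r hq r1, r2⟩, r', h2 q r' hq r3, r4⟩
  have uniq : ∀ c a b, SplMin P R S A c a → SplMin P R S A c b → a = b := by
    intro c a b h1 h2
    rcases hl a b h1.1 h2.1 with e | e | e
    · exact absurd h1.2.1 (h2.2.2 a e h1.1)
    · exact e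
    · exact absurd h2.2.1 (h1.2.2 b e h2.1)
  let Φ : M → M → Prop := fun c c' => ∀ q : M, Mem q c' ↔ Mem q c ∧
    ∃ a : M, SplMin P R S A c a ∧ ∀ r : M, Le P R r q → ¬Mem (pr r a) S
  have hΦ : D2 Φ := by unfold Φ; infer_instance
  have hf : ∀ c, ∃! c', Φ c c' := by
    intro c
    obtain ⟨c', hc'⟩ := sep c
      (fun q => ∃ a : M, SplMin P R S A c a ∧ ∀ r : M, Le P R r q → ¬Mem (pr r a) S)
    exact ⟨c', hc', fun d hd => ext fun q => by rw [hd, hc']⟩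
  have Φop : ∀ c c', Op P R p₀ c → Φ c c' → Op P R p₀ c' := by
    intro c c' hc hc'
    refine ⟨?_, fun q hq => hc.2.1 q ((hc' q).mp hq).1, fun q r hq hr => ?_⟩
    · obtain ⟨a, ha⟩ := ex c hc
      obtain ⟨q, q1, q2⟩ := ha.2.1.2
      exact ⟨q, (hc' q).mpr ⟨q1, a, ha, q2⟩⟩
    · obtain ⟨q1, a, q2, q3⟩ := (hc' q).mp hq
      exact (hc' r).mpr ⟨hc.2.2 q r q1 hr, a, q2, fun t ht => q3 t (hF.le_trans ht hr)⟩
  obtain ⟨c₀, hc₀⟩ := sep P (fun q => Le P R q p₀)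
  have op₀ : Op P R p₀ c₀ :=
    ⟨⟨p₀, (hc₀ _).mpr ⟨hp, hF.le_refl hp⟩⟩, fun q hq => ((hc₀ q).mp hq).2,
      fun q r hq hr => (hc₀ r).mpr ⟨hr.1, hF.le_trans hr ((hc₀ q).mp hq).2⟩⟩
  obtain ⟨s, s1, s2, s3, s4, s5⟩ := om_rec c₀ Φ hf
  have inv : ∀ n c', Mem n (om M) → Mem (pr (suc n) c') s → ∃ c, Mem (pr n c) s ∧ Φ c c' := by
    intro n c' hn h1
    obtain ⟨c, hc⟩ := s1 n hn
    obtain ⟨d, hd, -⟩ := hf c
    obtain rfl := s2 _ _ _ h1 (s5 _ _ _ hc hd)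
    exact ⟨c, hc, hd⟩
  have sop : ∀ n, Mem n (om M) → ∀ c, Mem (pr n c) s → Op P R p₀ c := by
    refine om_ind (fun n => ∀ c : M, Mem (pr n c) s → Op P R p₀ c) ?_ ?_
    · intro c hc
      rwa [s2 _ _ _ hc s4]
    · intro n hn ih c' hc'
      obtain ⟨c, h1, h2⟩ := inv n c' hn hc'
      exact Φop c c' (ih c h1) h2
  have later : ∀ l, Mem l (om M) → ∀ k c d a q, Mem k l → Mem (pr l d) s → Mem (pr k c) s →
      SplMin P R S A c a → Mem q d → ¬Mem (pr q a) S := by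
    refine om_ind (fun l => ∀ k c d a q : M, Mem k l → Mem (pr l d) s → Mem (pr k c) s →
      SplMin P R S A c a → Mem q d → ¬Mem (pr q a) S) ?_ ?_
    · intro k _ _ _ _ hk
      exact (not_mem_emp k hk).elim
    · intro l hl ih k c d a q hk h1 h2 h3 h4
      obtain ⟨e, e1, e2⟩ := inv l d hl h1
      rcases mem_suc.mp hk with hk | rfl
      · exact ih k c e a q hk e1 h2 h3 ((e2 q).mp h4).1
      · obtain rfl := s2 _ _ _ e1 h2
        obtain ⟨q1, b, b1, b2⟩ := (e2 q).mp h4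
        obtain rfl := uniq _ _ _ h3 b1
        exact b2 q (hF.le_refl ((sop k hl e e1).2.1 q q1).1)
  obtain ⟨B, hB⟩ := sep2 (om M) P (fun k q => ∃ c a : M,
    Mem (pr k c) s ∧ Mem q c ∧ SplMin P R S A c a ∧ Mem (pr q a) S)
  refine ⟨B, fun k q hq => ?_, fun k q r hq hr => ?_, fun k l q h1 h2 => ?_, fun i hi => ?_⟩
  · obtain ⟨hk, -, c, a, a1, a2, -⟩ := (hB _ _).mp hq
    exact ⟨hk, (sop k hk c a1).2.1 q a2⟩
  · obtain ⟨hk, -, c, a, a1, a2, a3, a4⟩ := (hB _ _).mp hq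
    exact (hB _ _).mpr ⟨hk, hr.1, c, a, a1, (sop k hk c a1).2.2 q r a2 hr, a3, mono _ _ _ a4 hr⟩
  · obtain ⟨hk, -, c, a, a1, a2, a3, a4⟩ := (hB _ _).mp h1
    obtain ⟨hl, -, d, b, b1, b2, b3, b4⟩ := (hB _ _).mp h2
    rcases nat_tri hk hl with e | e | e
    · exact absurd a4 (later l hl k c d a q e b1 a1 a3 b2)
    · exact e
    · exact absurd b4 (later k hk l d c b q e a1 b1 b3 a2)
  · obtain ⟨c, hc⟩ := s1 _ (suc_mem_om hi)
    have oc := sop _ (suc_mem_om hi) c hc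
    obtain ⟨a, ha⟩ := ex c oc
    obtain ⟨q, q1, q2⟩ := ha.2.1.1
    exact ⟨suc i, q, mem_suc.mpr (Or.inr rfl),
      (hB _ _).mpr ⟨suc_mem_om hi, (oc.2.1 q q1).1, c, a, hc, q1, ha, q2⟩⟩

variable {N : Type*} [Language.graph.Structure N] [hN : Fact (IsZF N)]
variable {j : M ↪[Language.graph] N} {P R one : M} {G : N}

namespace IsGenericExt

/-- a set countable in the extension is coded by a ground model relation -/
lemma exists_codes (h : IsGenericExt j P R G) (hF : IsForcing P R one) {w : M}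
    (hcw : Ctbl (j w)) : ∃ p₀ S, Mem (j p₀) G ∧ Codes P R p₀ w S := by
  obtain ⟨f, f1, f2⟩ := hcw.inj
  obtain ⟨S₀, s1, s2, s3⟩ := h.exists_rel hF f (prod w (om M))
  have s4 : ∀ a n, Mem a w → Mem n (om M) →
      (Mem (pr (j a) (j n)) f ↔ ∃ p, Mem (j p) G ∧ Mem (pr p (pr a n)) S₀) := by
    intro a n ha hn
    rw [← h.j_pr]
    exact s3 _ (pr_mem_prod.mpr ⟨ha, hn⟩)
  obtain ⟨p₁, p1, p2⟩ := h.decide hF (fun q => ∃ n a b : M, Mem n (om M) ∧ Mem a w ∧ Mem b w ∧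
      ¬a = b ∧ Mem (pr q (pr a n)) S₀ ∧ Mem (pr q (pr b n)) S₀) (by
    rintro q hq ⟨n, a, b, h1, h2, h3, h4, h5, h6⟩
    exact h4 (j.injective (f2 _ _ _ ((s4 a n h2 h1).mpr ⟨q, hq, h5⟩)
      ((s4 b n h3 h1).mpr ⟨q, hq, h6⟩))))
  obtain ⟨p₂, p3, p4⟩ := h.decide hF (fun q => ∃ a : M, Mem a w ∧
      ∀ r n : M, Le P R r q → Mem n (om M) → ¬Mem (pr r (pr a n)) S₀) (by
    rintro q hq ⟨a, h1, h2⟩
    obtain ⟨n', n1, n2⟩ := f1 (j a) ((j_mem j).mpr h1)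
    obtain ⟨n, rfl⟩ := h.transitive _ _ (h.om_sub _ n1)
    have hn := (j_mem j).mp (h.om_sub _ n1)
    obtain ⟨r₀, r1, r2⟩ := (s4 a n h1 hn).mp n2
    obtain ⟨r, -, r3, r4⟩ := h.meet r1 hq
    exact h2 r n r4 hn (s2 _ _ _ r2 r3))
  obtain ⟨p₀, q1, q2, q3⟩ := h.meet p1 p3
  obtain ⟨S, hS⟩ := sep3 P (om M) w (fun q n a => Le P R q p₀ ∧ Mem (pr q (pr a n)) S₀)
  refine ⟨p₀, S, q1, q2.1, ?_, ?_, ?_, ?_⟩
  · intro q n a hq
    obtain ⟨-, a2, a3, a4, -⟩ := (hS _ _ _).mp hq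
    exact ⟨a4, a2, a3⟩
  · intro q r n a hq hr
    obtain ⟨-, a2, a3, a4, a5⟩ := (hS _ _ _).mp hq
    exact (hS _ _ _).mpr ⟨hr.1, a2, a3, hF.le_trans hr a4, s2 _ _ _ a5 hr⟩
  · intro q n a b ha hb
    obtain ⟨-, a2, a3, a4, a5⟩ := (hS _ _ _).mp ha
    obtain ⟨-, -, b3, -, b5⟩ := (hS _ _ _).mp hb
    by_contra hab
    exact p2 q (hF.le_trans a4 q2) ⟨n, a, b, a2, a3, b3, hab, a5, b5⟩
  · intro a q ha hq
    by_contra hc'
    refine p4 q (hF.le_trans hq q3) ⟨a, ha, fun r n r1 r2 r3 => hc' ⟨r, n, r1, ?_⟩⟩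
    exact (hS _ _ _).mpr ⟨r1.1, r2, ha, hF.le_trans r1 hq, r3⟩

/-- every ground model set countable in the extension is a countable union of finite sets in the
ground model -/
theorem cuf (h : IsGenericExt j P R G) (hF : IsForcing P R one) (hc : CCC3 P R) {X : M}
    (hX : Ctbl (j X)) : CtblUnionFin X := by
  obtain ⟨p₀, S, -, hS⟩ := h.exists_codes hF hX
  exact hS.cuf hF hc

/-- a new subset of a ground model set is split below some condition of the generic filter -/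
lemma split_of_new (h : IsGenericExt j P R G) (hF : IsForcing P R one) {A : M} {y : N}
    (hy : Sub y (j A)) (hnew : ∀ z, y ≠ j z) :
    ∃ p₁ S, Mem (j p₁) G ∧ (∀ p q a, Mem (pr p a) S → Le P R q p → Mem (pr q a) S) ∧
      ∀ q, Le P R q p₁ → ∃ a, Mem a A ∧ (∃ r, Le P R r q ∧ Mem (pr r a) S) ∧
        ∃ r, Le P R r q ∧ ∀ t, Le P R t r → ¬Mem (pr t a) S := by
  obtain ⟨S, -, s2, s3⟩ := h.exists_rel hF y A
  obtain ⟨p₁, p1, p2⟩ := h.decide hF (fun q => ∀ a : M, Mem a A →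
      (∃ r : M, Le P R r q ∧ Mem (pr r a) S) →
        ∀ r : M, Le P R r q → ∃ t : M, Le P R t r ∧ Mem (pr t a) S) (by
    intro q hq hd
    obtain ⟨z, hz⟩ := sep A (fun a => ∃ r : M, Le P R r q ∧ Mem (pr r a) S)
    refine hnew z (ext fun x => ⟨fun hx => ?_, fun hx => ?_⟩)
    · obtain ⟨a, rfl⟩ := h.transitive _ _ (hy x hx)
      have ha := (j_mem j).mp (hy _ hx)
      obtain ⟨p, a1, a2⟩ := (s3 a ha).mp hx
      obtain ⟨r, -, r1, r2⟩ := h.meet a1 hq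
      exact (j_mem j).mpr ((hz a).mpr ⟨ha, r, r2, s2 _ _ _ a2 r1⟩)
    · obtain ⟨a, rfl⟩ := h.transitive _ _ hx
      obtain ⟨ha, hr⟩ := (hz a).mp ((j_mem j).mp hx)
      obtain ⟨t, t1, t2⟩ := h.below hF hq (fun t => Mem (pr t a) S) (hd a ha hr)
      exact (s3 a ha).mpr ⟨t, t1, t2⟩)
  refine ⟨p₁, S, p1, s2, fun q hq => ?_⟩
  have := p2 q hq
  push Not at this
  obtain ⟨a, a1, a2, a3⟩ := this
  exact ⟨a, a1, a2, a3⟩

/-- if a new subset of a well-ordered set is added, uncountability of all sets is preserved -/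
theorem not_ctbl_of_new (h : IsGenericExt j P R G) (hF : IsForcing P R one) (hc : CCC3 P R)
    {A : M} (hl : Lin A) {y : N} (hy : Sub y (j A)) (hnew : ∀ z, y ≠ j z) {X : M}
    (hX : ¬Ctbl X) : ¬Ctbl (j X) := by
  intro hcw
  obtain ⟨p₀, S, p1, hS⟩ := h.exists_codes hF hcw
  obtain ⟨p₁, T, p2, t1, t2⟩ := h.split_of_new hF hy hnew
  obtain ⟨p, -, p3, p4⟩ := h.meet p1 p2
  obtain ⟨B, hB⟩ := natName_of_split hF hl p3.1 t1 (fun q hq => t2 q (hF.le_trans hq p4))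
  exact hX (hS.ctbl_of_natName (B := B) hF hc
    ⟨fun k q hq => ⟨(hB.bd k q hq).1, hF.le_trans (hB.bd k q hq).2 p3⟩, hB.mono, hB.func, hB.unb⟩)

end IsGenericExt

end Pool.Agent.P.MP_6e04fb_lc
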